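/-
FRG/Line: lines of points with fragments acting on the edges of two classes; in a group of exponent
`2 ^ k` one class is a perfect matching on which all letters are constant.
-/
import Mathlib

namespace Pool.Agent.FRG

variable {G X : Type*} [Group G] [MulAction G X]

/-- folding of the path `0, ..., r` -/
def foldN (r m : ℕ) : ℕ := if m % (2 * r + 2) ≤ r then m % (2 * r + 2) else 2 * r + 1 - m % (2 * r + 2)

theorem foldN_le (r m : ℕ) : foldN r m ≤ r := by
  unfold foldN
  have : m % (2 * r + 2) < 2 * r + 2 := Nat.mod_lt _ (by omega)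
  split <;> omega

theorem foldN_eq (r d q : ℕ) (hq : q < 2 * r + 2) :
    foldN r ((2 * r + 2) * d + q) = if q ≤ r then q else 2 * r + 1 - q := by
  unfold foldN
  rw [Nat.mul_add_mod, Nat.mod_eq_of_lt hq]

/-- a path of `r + 1` points: the period of its end under the product of the two letters -/
theorem path_dvd (a b : G) (x : ℕ → X) (r : ℕ)
    (hinj : ∀ i ≤ r, ∀ j ≤ r, x i = x j → i = j) (h0 : b • x 0 = x 0)
    (hse : ∀ i < r, Even i → a • x i = x (i + 1) ∧ a • x (i + 1) = x i)
    (hso : ∀ i < r, ¬ Even i → b • x i = x (i + 1) ∧ b • x (i + 1) = x i)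
    (hee : Even r → a • x r = x r) (heo : ¬ Even r → b • x r = x r)
    {n : ℕ} (hn : (b * a) ^ n • x 0 = x 0) : (r + 1) ∣ n := by
  have key : ∀ m, (Even m → a • x (foldN r m) = x (foldN r (m + 1))) ∧
      (¬ Even m → b • x (foldN r m) = x (foldN r (m + 1))) := by
    intro m
    obtain ⟨d, q, hq, rfl⟩ : ∃ d q, q < 2 * r + 2 ∧ m = (2 * r + 2) * d + q :=
      ⟨m / (2 * r + 2), m % (2 * r + 2), Nat.mod_lt _ (by omega), (Nat.div_add_mod _ _).symm⟩
    have hpar : Even ((2 * r + 2) * d + q) ↔ Even q := by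
      have : Even ((2 * r + 2) * d) := by
        rw [show (2 * r + 2) * d = 2 * ((r + 1) * d) by ring]; exact even_two_mul _
      simp [Nat.even_add, this]
    rw [hpar, foldN_eq r d q hq]
    have hnext : foldN r ((2 * r + 2) * d + q + 1) =
        if q < r then q + 1 else if q ≤ 2 * r then 2 * r - q else 0 := by
      by_cases h : q = 2 * r + 1
      · subst h
        rw [show (2 * r + 2) * d + (2 * r + 1) + 1 = (2 * r + 2) * (d + 1) + 0 by ring,
          foldN_eq r (d + 1) 0 (by omega)]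
        simp only [Nat.zero_le, if_true]
        rw [if_neg (by omega), if_neg (by omega)]
      · rw [add_assoc, foldN_eq r d (q + 1) (by omega)]
        by_cases h1 : q < r
        · rw [if_pos (by omega), if_pos h1]
        · rw [if_neg (by omega), if_neg h1, if_pos (by omega)]
          omega
    rw [hnext]
    rcases lt_trichotomy q r with h | h | h
    · rw [if_pos h.le, if_pos h]
      exact ⟨fun he => (hse q h he).1, fun ho => (hso q h ho).1⟩
    · subst h
      rw [if_pos le_rfl, if_neg (lt_irrefl _), if_pos (by omega),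
        show 2 * q - q = q by omega]
      exact ⟨hee, heo⟩
    · rw [if_neg (by omega), if_neg (by omega)]
      by_cases h2 : q ≤ 2 * r
      · rw [if_pos h2]
        have e : 2 * r + 1 - q = (2 * r - q) + 1 := by omega
        have hpar2 : Even q ↔ Even (2 * r - q) := by
          rw [Nat.even_sub h2]; simp
        rw [e, hpar2]
        exact ⟨fun he => (hse (2 * r - q) (by omega) he).2,
          fun ho => (hso (2 * r - q) (by omega) ho).2⟩
      · rw [if_neg h2]
        have hq' : q = 2 * r + 1 := by omega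
        subst hq'
        have e : 2 * r + 1 - (2 * r + 1) = 0 := by omega
        rw [e]
        refine ⟨fun he => ?_, fun _ => h0⟩
        exact absurd he (by simp)
  have hpow : ∀ n : ℕ, (b * a) ^ n • x 0 = x (foldN r (2 * n)) := by
    intro n
    induction n with
    | zero => simp [foldN]
    | succ n ih =>
      rw [pow_succ', mul_smul, ih, mul_smul, (key (2 * n)).1 (even_two_mul n),
        (key (2 * n + 1)).2 (by simp)]
      rfl
  rw [hpow] at hn
  have h1 := hinj _ (foldN_le r _) 0 (Nat.zero_le _) hn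
  have h2 : (2 * n) % (2 * r + 2) = 0 := by
    unfold foldN at h1
    have h3 : (2 * n) % (2 * r + 2) < 2 * r + 2 := Nat.mod_lt _ (by omega)
    have h4 : (2 * n) % (2 * r + 2) % 2 = 0 := by
      rw [Nat.mod_mod_of_dvd _ ⟨r + 1, by ring⟩]; omega
    split at h1 <;> omega
  have h5 := Nat.dvd_of_mod_eq_zero h2
  rw [show 2 * r + 2 = 2 * (r + 1) by ring] at h5
  exact Nat.dvd_of_mul_dvd_mul_left (by norm_num) h5

/-- in a group of exponent `2 ^ k` a nontrivial path has an odd number of edges -/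
theorem path_odd {k : ℕ} (hexp : ∀ g : G, g ^ (2 ^ k) = 1) (a b : G) (x : ℕ → X) (r : ℕ)
    (hinj : ∀ i ≤ r, ∀ j ≤ r, x i = x j → i = j) (h0 : b • x 0 = x 0)
    (hse : ∀ i < r, Even i → a • x i = x (i + 1) ∧ a • x (i + 1) = x i)
    (hso : ∀ i < r, ¬ Even i → b • x i = x (i + 1) ∧ b • x (i + 1) = x i)
    (hee : Even r → a • x r = x r) (heo : ¬ Even r → b • x r = x r) (hr : 1 ≤ r) : ¬ Even r := by
  intro he
  have h1 := path_dvd a b x r hinj h0 hse hso hee heo (n := 2 ^ k) (by rw [hexp, one_smul])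
  have hodd : Odd (r + 1) := he.add_one
  have hcop : Nat.Coprime (r + 1) (2 ^ k) := (hodd.coprime_two_right).pow_right k
  have := hcop.eq_one_of_dvd h1
  omega

/-- a line with letters `H x` at the edge `x, x + 1` -/
structure Line (v : ℤ → X) (J : Set ℤ) (H : ℤ → Subgroup G) : Prop where
  ord : J.OrdConnected
  inj : Set.InjOn v J
  per : ∀ x, H (x + 2) = H x
  frag : ∀ x, ∀ g ∈ H x, x ∈ J → x + 1 ∈ J →
    (g • v x = v x ∧ g • v (x + 1) = v (x + 1)) ∨ (g • v x = v (x + 1) ∧ g • v (x + 1) = v x)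
  endR : ∀ x, ∀ g ∈ H x, x ∈ J → x + 1 ∉ J → g • v x = v x
  endL : ∀ x, ∀ g ∈ H x, x ∉ J → x + 1 ∈ J → g • v (x + 1) = v (x + 1)
  act : ∀ x, x ∈ J → x + 1 ∈ J → ∃ g ∈ H x, g • v x = v (x + 1)

/-- the letter `g` moves along the edge `x, x + 1` -/
def Act (v : ℤ → X) (J : Set ℤ) (g : G) (x : ℤ) : Prop := x ∈ J ∧ x + 1 ∈ J ∧ g • v x = v (x + 1)

namespace Line

variable {v : ℤ → X} {J : Set ℤ} {H : ℤ → Subgroup G}

theorem refl (Ln : Line v J H) : Line (fun y => v (-y)) {y | -y ∈ J} (fun y => H (-y - 1)) where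
  ord := by
    refine ⟨fun x hx y hy z hz => ?_⟩
    exact Ln.ord.out hy hx ⟨neg_le_neg hz.2, neg_le_neg hz.1⟩
  inj := by
    intro x hx y hy h
    have := Ln.inj hx hy h
    omega
  per := by
    intro x
    have := Ln.per (-(x + 2) - 1)
    rw [show -(x + 2) - 1 + 2 = -x - 1 by ring] at this
    exact this.symm
  frag := by
    intro x g hg hx hx'
    have e1 : -x - 1 + 1 = -x := by ring
    have e2 : -(x + 1) = -x - 1 := by ring
    have hx'' : -x - 1 ∈ J := by rw [← e2]; exact hx'
    have h := Ln.frag (-x - 1) g hg hx'' (by rw [e1]; exact hx)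
    rw [e1] at h
    simp only [e2]
    tauto
  endR := by
    intro x g hg hx hx'
    have e1 : -x - 1 + 1 = -x := by ring
    have e2 : -(x + 1) = -x - 1 := by ring
    have hx'' : -x - 1 ∉ J := by rw [← e2]; exact hx'
    have h := Ln.endL (-x - 1) g hg hx'' (by rw [e1]; exact hx)
    rw [e1] at h
    exact h
  endL := by
    intro x g hg hx hx'
    have e1 : -x - 1 + 1 = -x := by ring
    have e2 : -(x + 1) = -x - 1 := by ring
    have hx'' : -x - 1 ∈ J := by rw [← e2]; exact hx'
    have h := Ln.endR (-x - 1) g hg hx'' (by rw [e1]; exact hx)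
    simp only [e2]
    exact h
  act := by
    intro x hx hx'
    have e1 : -x - 1 + 1 = -x := by ring
    have e2 : -(x + 1) = -x - 1 := by ring
    have hx'' : -x - 1 ∈ J := by rw [← e2]; exact hx'
    obtain ⟨g, hg, h⟩ := Ln.act (-x - 1) hx'' (by rw [e1]; exact hx)
    refine ⟨g, hg, ?_⟩
    rcases Ln.frag (-x - 1) g hg hx'' (by rw [e1]; exact hx) with h' | h'
    · exfalso
      rw [h'.1] at h
      have := Ln.inj hx'' (by rw [e1]; exact hx) h
      omega
    · rw [e1] at h'
      simp only [e2]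
      exact h'.2

theorem per_nat (Ln : Line v J H) (x : ℤ) (n : ℕ) : H (x + 2 * n) = H x := by
  induction n with
  | zero => simp
  | succ n ih =>
    rw [← ih, ← Ln.per (x + 2 * n)]
    congr 1
    push_cast; ring

theorem per_dvd (Ln : Line v J H) {x y : ℤ} (h : (2 : ℤ) ∣ y - x) : H y = H x := by
  obtain ⟨c, hc⟩ := h
  rcases Int.eq_nat_or_neg c with ⟨n, rfl | rfl⟩
  · rw [← per_nat Ln x n]; congr 1; omega
  · rw [← per_nat Ln y n]; congr 1; omega

theorem mem_between (Ln : Line v J H) {x y z : ℤ} (hx : x ∈ J) (hy : y ∈ J) (h1 : x ≤ z)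
    (h2 : z ≤ y) : z ∈ J := Ln.ord.out hx hy ⟨h1, h2⟩

theorem not_act (Ln : Line v J H) {x : ℤ} {g : G} (hg : g ∈ H x) (h : ¬ Act v J g x) :
    (x ∈ J → g • v x = v x) ∧ (x + 1 ∈ J → g • v (x + 1) = v (x + 1)) := by
  refine ⟨fun hx => ?_, fun hx' => ?_⟩
  · by_cases hx' : x + 1 ∈ J
    · rcases Ln.frag x g hg hx hx' with h' | h'
      · exact h'.1
      · exact absurd ⟨hx, hx', h'.1⟩ h
    · exact Ln.endR x g hg hx hx'
  · by_cases hx : x ∈ J
    · rcases Ln.frag x g hg hx hx' with h' | h'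
      · exact h'.2
      · exact absurd ⟨hx, hx', h'.1⟩ h
    · exact Ln.endL x g hg hx hx'

theorem act_swap (Ln : Line v J H) {x : ℤ} {g : G} (hg : g ∈ H x) (h : Act v J g x) :
    g • v x = v (x + 1) ∧ g • v (x + 1) = v x := by
  obtain ⟨hx, hx', h1⟩ := h
  rcases Ln.frag x g hg hx hx' with h' | h'
  · exfalso
    rw [h'.1] at h1
    have := Ln.inj hx hx' h1
    omega
  · exact h'

/-- the letters of two edges of the same class agree -/
def Same (v : ℤ → X) (J : Set ℤ) (H : ℤ → Subgroup G) (x y : ℤ) : Prop :=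
  ∀ g ∈ H x, Act v J g x ↔ Act v J g y

theorem same_of_sub (Ln : Line v J H) {x y : ℤ} (hxy : H y = H x) (hx : x ∈ J) (hx' : x + 1 ∈ J)
    (h : ∀ g ∈ H x, Act v J g x → Act v J g y) : Same v J H x y := by
  intro g hg
  refine ⟨h g hg, fun hgy => ?_⟩
  by_contra hgx
  obtain ⟨t, ht, hta⟩ := Ln.act x hx hx'
  have htx : Act v J t x := ⟨hx, hx', hta⟩
  have hty := h t ht htx
  have h1 := not_act Ln hg hgx
  have hgt : Act v J (g * t) x := ⟨hx, hx', by rw [mul_smul, hta, h1.2 hx']⟩
  have h2 := h _ ((H x).mul_mem hg ht) hgt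
  have h3 := (act_swap Ln (by rw [hxy]; exact ht) hty).1
  have h4 := (act_swap Ln (by rw [hxy]; exact hg) hgy).2
  have h5 := h2.2.2
  rw [mul_smul, h3, h4] at h5
  have := Ln.inj h2.1 h2.2.1 h5
  omega

theorem same_symm {x y : ℤ} (hxy : H y = H x) (h : Same v J H x y) : Same v J H y x := by
  intro g hg
  exact (h g (by rw [← hxy]; exact hg)).symm

theorem same_trans {x y z : ℤ} (hxy : H y = H x) (h : Same v J H x y) (h' : Same v J H y z) :
    Same v J H x z := by
  intro g hg
  exact (h g hg).trans (h' g (by rw [hxy]; exact hg))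

/-- propagation to the right of a change -/
theorem right (Ln : Line v J H) {k : ℕ} (hexp : ∀ g : G, g ^ (2 ^ k) = 1) {x : ℤ}
    (hx : x ∈ J) (hx3 : x + 3 ∈ J) (hns : ¬ Same v J H x (x + 2)) :
    ∀ n : ℕ, 1 ≤ n → x + 2 * n + 1 ∈ J →
      x + 2 * n + 2 ∈ J ∧ Same v J H (x + 1) (x + 2 * n + 1) := by
  intro n
  induction n using Nat.strong_induction_on with
  | _ n ih =>
    intro hn hJn
    have hx1 : x + 1 ∈ J := mem_between Ln hx hx3 (by omega) (by omega)
    have hx2 : x + 2 ∈ J := mem_between Ln hx hx3 (by omega) (by omega)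
    have hJ : ∀ z, x ≤ z → z ≤ x + 2 * n + 1 → z ∈ J := fun z h1 h2 =>
      mem_between Ln hx hJn h1 h2
    -- the minimal `m`
    have hQ : ∃ m : ℕ, 1 ≤ m ∧ m ≤ n ∧ ∀ i : ℕ, m ≤ i → i ≤ n → Same v J H (x + 2 * m) (x + 2 * i) := by
      refine ⟨n, hn, le_rfl, fun i h1 h2 => ?_⟩
      have : i = n := le_antisymm h2 h1
      subst this
      intro g _
      exact Iff.rfl
    classical
    obtain ⟨m, ⟨hm1, hmn, hmS⟩, hmin⟩ : ∃ m : ℕ, (1 ≤ m ∧ m ≤ n ∧ ∀ i : ℕ, m ≤ i → i ≤ n →
        Same v J H (x + 2 * m) (x + 2 * i)) ∧ ∀ m' < m, ¬ (1 ≤ m' ∧ m' ≤ n ∧ ∀ i : ℕ, m' ≤ i →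
        i ≤ n → Same v J H (x + 2 * m') (x + 2 * i)) :=
      ⟨Nat.find hQ, Nat.find_spec hQ, fun m' hm' => Nat.find_min hQ hm'⟩
    have hns' : ¬ Same v J H (x + 2 * m) (x + 2 * m - 2) := by
      intro hS
      rcases Nat.eq_or_lt_of_le hm1 with h1 | h1
      · apply hns
        rw [← h1] at hS
        have e1 : x + 2 * ((1 : ℕ) : ℤ) = x + 2 := by push_cast; ring
        have e2 : x + 2 * ((1 : ℕ) : ℤ) - 2 = x := by push_cast; ring
        rw [e2, e1] at hS
        exact same_symm (Ln.per x).symm hS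
      · apply hmin (m - 1) (by omega)
        refine ⟨by omega, by omega, fun i hi hin => ?_⟩
        have e : x + 2 * ((m - 1 : ℕ) : ℤ) = x + 2 * m - 2 := by
          push_cast [Nat.cast_sub hm1]; ring
        rw [e]
        have hHH : H (x + 2 * m - 2) = H (x + 2 * m) := by
          have := Ln.per (x + 2 * m - 2)
          rw [show x + 2 * (m : ℤ) - 2 + 2 = x + 2 * m by ring] at this
          exact this.symm
        rcases Nat.eq_or_lt_of_le hi with h2 | h2
        · rw [← h2, e]
          intro g _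
          exact Iff.rfl
        · exact same_trans hHH.symm (same_symm hHH hS) (hmS i (by omega) hin)
    have hHm : H (x + 2 * m - 2) = H (x + 2 * m) := by
      have := Ln.per (x + 2 * m - 2)
      rw [show x + 2 * (m : ℤ) - 2 + 2 = x + 2 * m by ring] at this
      exact this.symm
    obtain ⟨l, hl, hlm, hlm'⟩ : ∃ l ∈ H (x + 2 * m), Act v J l (x + 2 * m) ∧
        ¬ Act v J l (x + 2 * m - 2) := by
      by_contra hcon
      push Not at hcon
      exact hns' (same_of_sub Ln hHm (hJ _ (by omega) (by omega)) (hJ _ (by omega) (by omega)) hcon)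
    have hlH : ∀ i : ℕ, l ∈ H (x + 2 * i) := by
      intro i
      have : H (x + 2 * i) = H (x + 2 * m) := per_dvd Ln (by omega)
      rw [this]; exact hl
    have hla : ∀ i : ℕ, m ≤ i → i ≤ n → Act v J l (x + 2 * i) := fun i h1 h2 =>
      (hmS i h1 h2 l hl).1 hlm
    -- all letters active at `x + 1`
    have main : ∀ κ ∈ H (x + 1), Act v J κ (x + 1) → Act v J κ (x + 2 * n + 1) := by
      intro κ hκ hκa
      by_contra hcon
      have hκH : ∀ i : ℕ, κ ∈ H (x + 2 * i + 1) := by
        intro i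
        have : H (x + 2 * i + 1) = H (x + 1) := per_dvd Ln (by omega)
        rw [this]; exact hκ
      have hκall : ∀ i : ℕ, i < n → Act v J κ (x + 2 * i + 1) := by
        intro i hi
        rcases Nat.eq_zero_or_pos i with h0 | h0
        · subst h0; simpa using hκa
        · exact ((ih i hi h0 (hJ _ (by omega) (by omega))).2 κ hκ).1 hκa
      have hodd := path_odd hexp κ l (fun i : ℕ => v (x + 2 * m - 1 + i)) (2 * (n - m) + 2)
        (by
          intro i hi j hj hij
          have := Ln.inj (hJ _ (by omega) (by omega)) (hJ _ (by omega) (by omega)) hij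
          omega)
        (by
          have h1 := (not_act Ln (by rw [hHm]; exact hl) hlm').2
          have e : x + 2 * (m : ℤ) - 2 + 1 = x + 2 * m - 1 + ((0 : ℕ) : ℤ) := by push_cast; ring
          rw [e] at h1
          exact h1 (hJ _ (by omega) (by omega)))
        (by
          intro i hi he
          obtain ⟨c, hc⟩ := he
          have e : x + 2 * (m : ℤ) - 1 + i = x + 2 * ((m - 1 + c : ℕ) : ℤ) + 1 := by
            push_cast [Nat.cast_sub hm1]; omega
          have e' : x + 2 * (m : ℤ) - 1 + ((i + 1 : ℕ) : ℤ) = x + 2 * ((m - 1 + c : ℕ) : ℤ) + 1 + 1 := by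
            push_cast [Nat.cast_sub hm1]; omega
          have h1 := act_swap Ln (hκH (m - 1 + c)) (hκall (m - 1 + c) (by omega))
          show κ • v _ = v _ ∧ κ • v _ = v _
          rw [e, e']
          exact h1)
        (by
          intro i hi ho
          obtain ⟨c, hc⟩ := Nat.not_even_iff_odd.1 ho
          have e : x + 2 * (m : ℤ) - 1 + i = x + 2 * ((m + c : ℕ) : ℤ) := by
            push_cast; omega
          have e' : x + 2 * (m : ℤ) - 1 + ((i + 1 : ℕ) : ℤ) = x + 2 * ((m + c : ℕ) : ℤ) + 1 := by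
            push_cast; omega
          have h1 := act_swap Ln (hlH (m + c)) (hla (m + c) (by omega) (by omega))
          show l • v _ = v _ ∧ l • v _ = v _
          rw [e, e']
          exact h1)
        (by
          intro _
          have h1 := (not_act Ln (hκH n) hcon).1 hJn
          have e : x + 2 * (m : ℤ) - 1 + ((2 * (n - m) + 2 : ℕ) : ℤ) = x + 2 * n + 1 := by
            push_cast [Nat.cast_sub hmn]; ring
          show κ • v _ = v _
          rw [e]; exact h1)
        (by
          intro h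
          exact absurd ⟨n - m + 1, by ring⟩ h)
        (by omega)
      exact hodd ⟨n - m + 1, by ring⟩
    obtain ⟨κ, hκ, hκa⟩ := Ln.act (x + 1) hx1 (by rw [add_assoc]; exact hx2)
    have h1 := main κ hκ ⟨hx1, by rw [add_assoc]; exact hx2, hκa⟩
    refine ⟨?_, ?_⟩
    · have := h1.2.1
      rwa [add_assoc] at this
    · exact same_of_sub Ln (per_dvd Ln (by omega)) hx1 (by rw [add_assoc]; exact hx2) main

theorem act_refl (Ln : Line v J H) {y : ℤ} {g : G} (hg : g ∈ H (-y - 1)) :
    Act (fun y => v (-y)) {y | -y ∈ J} g y ↔ Act v J g (-y - 1) := by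
  have e1 : -y - 1 + 1 = -y := by ring
  have e2 : -(y + 1) = -y - 1 := by ring
  constructor
  · rintro ⟨h1, h2, h3⟩
    have h1' : -y ∈ J := h1
    have h2' : -y - 1 ∈ J := by rw [← e2]; exact h2
    have h3' : g • v (-y) = v (-y - 1) := by rw [← e2]; exact h3
    refine ⟨h2', by rw [e1]; exact h1', ?_⟩
    rcases Ln.frag (-y - 1) g hg h2' (by rw [e1]; exact h1') with h | h
    · exfalso
      rw [e1, h3'] at h
      have := Ln.inj h2' h1' h.2
      omega
    · exact h.1
  · intro h
    have h' := act_swap Ln hg h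
    obtain ⟨h1, h2, -⟩ := h
    rw [e1] at h2 h'
    exact ⟨h2, by show -(y + 1) ∈ J; rw [e2]; exact h1, by show g • v (-y) = v (-(y + 1)); rw [e2]; exact h'.2⟩

/-- propagation to the left of a change -/
theorem left (Ln : Line v J H) {k : ℕ} (hexp : ∀ g : G, g ^ (2 ^ k) = 1) {x : ℤ}
    (hx : x ∈ J) (hx3 : x + 3 ∈ J) (hns : ¬ Same v J H x (x + 2)) :
    ∀ n : ℕ, 1 ≤ n → x + 2 - 2 * n ∈ J →
      x + 1 - 2 * n ∈ J ∧ Same v J H (x + 1) (x + 1 - 2 * n) := by
  intro n hn hJn
  have h := right (refl Ln) hexp (x := -x - 3)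
    (by show -(-x - 3) ∈ J; rw [show -(-x - 3) = x + 3 by ring]; exact hx3)
    (by show -(-x - 3 + 3) ∈ J; rw [show -(-x - 3 + 3) = x by ring]; exact hx)
    (by
      intro hS
      apply hns
      have e1 : -(-x - 3) - 1 = x + 2 := by ring
      have e2 : -(-x - 3 + 2) - 1 = x := by ring
      intro g hg
      have hg' : g ∈ H (x + 2) := by rw [Ln.per]; exact hg
      have h1 := hS g (by show g ∈ H (-(-x - 3) - 1); rw [e1]; exact hg')
      rw [act_refl Ln (by rw [e1]; exact hg'), act_refl Ln (by rw [e2]; exact hg), e1, e2] at h1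
      exact h1.symm) n hn
    (by show -(-x - 3 + 2 * n + 1) ∈ J; rw [show -(-x - 3 + 2 * (n : ℤ) + 1) = x + 2 - 2 * n by ring]; exact hJn)
  obtain ⟨h1, h2⟩ := h
  refine ⟨?_, ?_⟩
  · have h1' : -(-x - 3 + 2 * (n : ℤ) + 2) ∈ J := h1
    rwa [show -(-x - 3 + 2 * (n : ℤ) + 2) = x + 1 - 2 * n by ring] at h1'
  · intro g hg
    have e1 : -(-x - 3 + 1) - 1 = x + 1 := by ring
    have e2 : -(-x - 3 + 2 * (n : ℤ) + 1) - 1 = x + 1 - 2 * n := by ring
    have hg2 : g ∈ H (x + 1 - 2 * n) := by
      have : H (x + 1 - 2 * n) = H (x + 1) := per_dvd Ln (by omega)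
      rw [this]; exact hg
    have h3 := h2 g (by show g ∈ H (-(-x - 3 + 1) - 1); rw [e1]; exact hg)
    rwa [act_refl Ln (by rw [e1]; exact hg), act_refl Ln (by rw [e2]; exact hg2), e1, e2] at h3

/-- if there is no change then the classes are constant -/
theorem chain (Ln : Line v J H) (hall : ∀ x, x ∈ J → x + 3 ∈ J → Same v J H x (x + 2)) {e : ℤ}
    (he : e ∈ J) (he' : e + 1 ∈ J) {y : ℤ} (hy : (2 : ℤ) ∣ y - e) (hyJ : y ∈ J) (hyJ' : y + 1 ∈ J) :
    Same v J H e y := by
  have up : ∀ (n : ℕ) (a : ℤ), a ∈ J → a + 2 * n + 1 ∈ J → Same v J H a (a + 2 * n) := by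
    intro n
    induction n with
    | zero => intro a _ _ g _; simp
    | succ n ih =>
      intro a ha ha'
      have ha'' : a + 2 * n + 3 ∈ J := by
        rwa [show a + 2 * ((n + 1 : ℕ) : ℤ) + 1 = a + 2 * n + 3 by push_cast; ring] at ha'
      have h1 := ih a ha (mem_between Ln ha ha'' (by omega) (by omega))
      have h2 := hall (a + 2 * n) (mem_between Ln ha ha'' (by omega) (by omega)) ha''
      rw [show a + 2 * ((n + 1 : ℕ) : ℤ) = a + 2 * n + 2 by push_cast; ring]
      exact same_trans (per_nat Ln a n) h1 h2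
  obtain ⟨c, hc⟩ := hy
  rcases Int.eq_nat_or_neg c with ⟨n, rfl | rfl⟩
  · have e1 : y = e + 2 * n := by omega
    subst e1
    exact up n e he hyJ'
  · have e1 : e = y + 2 * n := by omega
    subst e1
    exact same_symm (per_nat Ln y n) (up n y hyJ he')

/-- **Perfect matching.** -/
theorem pm (Ln : Line v J H) {k : ℕ} (hexp : ∀ g : G, g ^ (2 ^ k) = 1) {x0 : ℤ}
    (hx0 : x0 ∈ J) (hx0' : x0 + 1 ∈ J) : ∃ e, e ∈ J ∧ e + 1 ∈ J ∧
      (∀ y, (2 : ℤ) ∣ y - e → y ∈ J → y + 1 ∈ J → Same v J H e y) ∧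
      (∀ z ∈ J, (2 : ℤ) ∣ z - e → z + 1 ∈ J) ∧ (∀ z ∈ J, (2 : ℤ) ∣ z - e - 1 → z - 1 ∈ J) := by
  by_cases hch : ∃ x, x ∈ J ∧ x + 3 ∈ J ∧ ¬ Same v J H x (x + 2)
  · obtain ⟨x, hx, hx3, hns⟩ := hch
    have hx1 : x + 1 ∈ J := mem_between Ln hx hx3 (by omega) (by omega)
    have hx2 : x + 2 ∈ J := mem_between Ln hx hx3 (by omega) (by omega)
    have hR := right Ln hexp hx hx3 hns
    have hL := left Ln hexp hx hx3 hns
    refine ⟨x + 1, hx1, by rw [add_assoc]; exact hx2, ?_, ?_, ?_⟩
    · rintro y ⟨c, hc⟩ hy hy'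
      rcases Int.eq_nat_or_neg c with ⟨n, rfl | rfl⟩
      · rcases Nat.eq_zero_or_pos n with h0 | h0
        · have : y = x + 1 := by subst h0; omega
          subst this; intro g _; exact Iff.rfl
        · have e : y = x + 2 * n + 1 := by omega
          subst e
          exact (hR n h0 hy).2
      · rcases Nat.eq_zero_or_pos n with h0 | h0
        · have : y = x + 1 := by subst h0; omega
          subst this; intro g _; exact Iff.rfl
        · have e : y = x + 1 - 2 * n := by omega
          subst e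
          refine (hL n h0 ?_).2
          rwa [show x + 1 - 2 * (n : ℤ) + 1 = x + 2 - 2 * n by ring] at hy'
    · rintro z hz ⟨c, hc⟩
      rcases Int.eq_nat_or_neg c with ⟨n, rfl | rfl⟩
      · rcases Nat.eq_zero_or_pos n with h0 | h0
        · have : z = x + 1 := by subst h0; omega
          subst this; rw [add_assoc]; exact hx2
        · have e : z = x + 2 * n + 1 := by omega
          subst e
          have := (hR n h0 hz).1
          rwa [show x + 2 * (n : ℤ) + 1 + 1 = x + 2 * n + 2 by ring]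
      · rcases Nat.eq_zero_or_pos n with h0 | h0
        · have : z = x + 1 := by subst h0; omega
          subst this; rw [add_assoc]; exact hx2
        · exact mem_between Ln hz hx1 (by omega) (by omega)
    · rintro z hz ⟨c, hc⟩
      rcases Int.eq_nat_or_neg c with ⟨n, rfl | rfl⟩
      · exact mem_between Ln hx1 hz (by omega) (by omega)
      · rcases Nat.eq_zero_or_pos n with h0 | h0
        · have : z = x + 2 := by subst h0; omega
          subst this; rw [show x + 2 - 1 = x + 1 by ring]; exact hx1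
        · have e : z = x + 2 - 2 * n := by omega
          subst e
          have := (hL n h0 hz).1
          rwa [show x + 2 - 2 * (n : ℤ) - 1 = x + 1 - 2 * n by ring]
  · push Not at hch
    have hall : ∀ x, x ∈ J → x + 3 ∈ J → Same v J H x (x + 2) := fun x h1 h2 => by
      by_contra h3
      exact hch x h1 h2 |> fun h => h3 h
    have full : ∀ c : ℤ, ∃ β ∈ H c, ∀ y, (2 : ℤ) ∣ y - c → y ∈ J → y + 1 ∈ J → Act v J β y := by
      intro c
      by_cases hy : ∃ y, (2 : ℤ) ∣ y - c ∧ y ∈ J ∧ y + 1 ∈ J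
      · obtain ⟨y0, hy0, hy1, hy2⟩ := hy
        obtain ⟨β, hβ, hβa⟩ := Ln.act y0 hy1 hy2
        refine ⟨β, by rw [← per_dvd Ln hy0]; exact hβ, fun y hyc hyJ hyJ' => ?_⟩
        have h1 := chain Ln hall hy1 hy2 (y := y) (by omega) hyJ hyJ'
        exact (h1 β hβ).1 ⟨hy1, hy2, hβa⟩
      · exact ⟨1, (H c).one_mem, fun y h1 h2 h3 => absurd ⟨y, h1, h2, h3⟩ hy⟩
    obtain ⟨α, hα, hαa⟩ := full x0
    obtain ⟨β, hβ, hβa⟩ := full (x0 + 1)
    -- bounded above
    have hab : ∃ n : ℕ, x0 + n ∉ J := by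
      by_contra hcon
      push Not at hcon
      have hJ : ∀ z, x0 ≤ z → z ∈ J := by
        intro z hz
        have := hcon (z - x0).toNat
        rwa [show x0 + ((z - x0).toNat : ℤ) = z by omega] at this
      have hpow : ∀ n : ℕ, (β * α) ^ n • v x0 = v (x0 + 2 * n) := by
        intro n
        induction n with
        | zero => simp
        | succ n ih =>
          have h1 := (hαa (x0 + 2 * n) (by omega) (hJ _ (by omega)) (hJ _ (by omega))).2.2
          have h2 := (hβa (x0 + 2 * n + 1) (by omega) (hJ _ (by omega)) (hJ _ (by omega))).2.2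
          rw [pow_succ', mul_smul, ih, mul_smul, h1, h2]
          congr 1; push_cast; ring
      have h1 := hpow (2 ^ k)
      rw [hexp, one_smul] at h1
      have h3 : (0 : ℤ) < ((2 ^ k : ℕ) : ℤ) := by positivity
      have h2 := Ln.inj hx0 (hJ _ (by omega)) h1
      omega
    have hbe : ∃ n : ℕ, x0 + 1 - n ∉ J := by
      by_contra hcon
      push Not at hcon
      have hJ : ∀ z, z ≤ x0 + 1 → z ∈ J := by
        intro z hz
        have := hcon (x0 + 1 - z).toNat
        rwa [show x0 + 1 - ((x0 + 1 - z).toNat : ℤ) = z by omega] at this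
      have hpow : ∀ n : ℕ, (β * α) ^ n • v (x0 + 1) = v (x0 + 1 - 2 * n) := by
        intro n
        induction n with
        | zero => simp
        | succ n ih =>
          have hα' : α ∈ H (x0 - 2 * n) := by
            rw [per_dvd Ln (x := x0) (y := x0 - 2 * n) (by omega)]; exact hα
          have hβ' : β ∈ H (x0 - 2 * n - 1) := by
            rw [per_dvd Ln (x := x0 + 1) (y := x0 - 2 * n - 1) (by omega)]; exact hβ
          have h1 := (act_swap Ln hα' (hαa (x0 - 2 * n) (by omega) (hJ _ (by omega))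
            (hJ _ (by omega)))).2
          have h2 := (act_swap Ln hβ' (hβa (x0 - 2 * n - 1) (by omega) (hJ _ (by omega))
            (hJ _ (by omega)))).2
          rw [show x0 - 2 * (n : ℤ) + 1 = x0 + 1 - 2 * n by ring] at h1
          rw [show x0 - 2 * (n : ℤ) - 1 + 1 = x0 - 2 * n by ring] at h2
          rw [pow_succ', mul_smul, ih, mul_smul, h1, h2]
          congr 1; push_cast; ring
      have h1 := hpow (2 ^ k)
      rw [hexp, one_smul] at h1
      have h3 : (0 : ℤ) < ((2 ^ k : ℕ) : ℤ) := by positivity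
      have h2 := Ln.inj hx0' (hJ _ (by omega)) h1
      omega
    classical
    obtain ⟨nq, hnq, hnq'⟩ : ∃ n : ℕ, x0 + n ∉ J ∧ ∀ m < n, x0 + (m : ℤ) ∈ J :=
      ⟨Nat.find hab, Nat.find_spec hab, fun m hm => not_not.1 (Nat.find_min hab hm)⟩
    obtain ⟨np, hnp, hnp'⟩ : ∃ n : ℕ, x0 + 1 - n ∉ J ∧ ∀ m < n, x0 + 1 - (m : ℤ) ∈ J :=
      ⟨Nat.find hbe, Nat.find_spec hbe, fun m hm => not_not.1 (Nat.find_min hbe hm)⟩
    have hnq2 : 2 ≤ nq := by
      rcases Nat.lt_or_ge nq 2 with h | h
      · exfalso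
        interval_cases nq
        · simp at hnq; exact hnq hx0
        · exact hnq (by simpa using hx0')
      · exact h
    have hnp2 : 2 ≤ np := by
      rcases Nat.lt_or_ge np 2 with h | h
      · exfalso
        interval_cases np
        · simp at hnp; exact hnp hx0'
        · exact hnp (by simpa using hx0)
      · exact h
    set q : ℤ := x0 + nq - 1 with hq
    set p : ℤ := x0 + 2 - np with hp
    have hqJ : q ∈ J := by
      have := hnq' (nq - 1) (by omega)
      rwa [show x0 + ((nq - 1 : ℕ) : ℤ) = q by rw [hq]; push_cast [Nat.cast_sub (show 1 ≤ nq by omega)]; ring] at this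
    have hpJ : p ∈ J := by
      have := hnp' (np - 1) (by omega)
      rwa [show x0 + 1 - ((np - 1 : ℕ) : ℤ) = p by rw [hp]; push_cast [Nat.cast_sub (show 1 ≤ np by omega)]; ring] at this
    have hq1 : q + 1 ∉ J := by rw [hq, show x0 + (nq : ℤ) - 1 + 1 = x0 + nq by ring]; exact hnq
    have hp1 : p - 1 ∉ J := by rw [hp, show x0 + 2 - (np : ℤ) - 1 = x0 + 1 - np by ring]; exact hnp
    have hJ : ∀ z, p ≤ z → z ≤ q → z ∈ J := fun z h1 h2 => mem_between Ln hpJ hqJ h1 h2
    have hleq : ∀ z ∈ J, z ≤ q := by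
      intro z hz
      by_contra hcon
      exact hq1 (mem_between Ln hqJ hz (by omega) (by omega))
    have hgep : ∀ z ∈ J, p ≤ z := by
      intro z hz
      by_contra hcon
      exact hp1 (mem_between Ln hz hpJ (by omega) (by omega))
    obtain ⟨α', hα', hαa'⟩ := full p
    obtain ⟨β', hβ', hβa'⟩ := full (p + 1)
    obtain ⟨r, hr⟩ : ∃ r : ℕ, q = p + r := ⟨(q - p).toNat, by omega⟩
    have hr1 : 1 ≤ r := by omega
    have hα2 : ∀ i : ℤ, (2 : ℤ) ∣ i - p → α' ∈ H i := fun i hi => by
      rw [per_dvd Ln hi]; exact hα'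
    have hβ2 : ∀ i : ℤ, (2 : ℤ) ∣ i - (p + 1) → β' ∈ H i := fun i hi => by
      rw [per_dvd Ln hi]; exact hβ'
    have hodd := path_odd hexp α' β' (fun i : ℕ => v (p + i)) r
      (by
        intro i hi j hj hij
        have := Ln.inj (hJ _ (by omega) (by omega)) (hJ _ (by omega) (by omega)) hij
        omega)
      (by
        have h1 := (not_act Ln (hβ2 (p - 1) (by omega)) (x := p - 1) (fun h => hp1 h.1)).2
        rw [show p - 1 + 1 = p by ring] at h1
        simpa using h1 hpJ)
      (by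
        intro i hi he
        obtain ⟨c, hc⟩ := he
        have h1 := act_swap Ln (hα2 (p + i) (by omega))
          (hαa' (p + i) (by omega) (hJ _ (by omega) (by omega)) (hJ _ (by omega) (by omega)))
        have e' : p + ((i + 1 : ℕ) : ℤ) = p + i + 1 := by push_cast; ring
        show α' • v _ = v _ ∧ α' • v _ = v _
        rw [e']; exact h1)
      (by
        intro i hi ho
        obtain ⟨c, hc⟩ := Nat.not_even_iff_odd.1 ho
        have h1 := act_swap Ln (hβ2 (p + i) (by omega))
          (hβa' (p + i) (by omega) (hJ _ (by omega) (by omega)) (hJ _ (by omega) (by omega)))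
        have e' : p + ((i + 1 : ℕ) : ℤ) = p + i + 1 := by push_cast; ring
        show β' • v _ = v _ ∧ β' • v _ = v _
        rw [e']; exact h1)
      (by
        intro he
        obtain ⟨c, hc⟩ := he
        exact (not_act Ln (hα2 (p + r) (by omega)) (fun h => hq1 (by rw [hr]; exact h.2.1))).1
          (by rw [← hr]; exact hqJ))
      (by
        intro ho
        obtain ⟨c, hc⟩ := Nat.not_even_iff_odd.1 ho
        exact (not_act Ln (hβ2 (p + r) (by omega)) (fun h => hq1 (by rw [hr]; exact h.2.1))).1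
          (by rw [← hr]; exact hqJ))
      hr1
    obtain ⟨c, hc⟩ := Nat.not_even_iff_odd.1 hodd
    refine ⟨p, hpJ, hJ _ (by omega) (by omega), ?_, ?_, ?_⟩
    · intro y hy hyJ hyJ'
      exact chain Ln hall hpJ (hJ _ (by omega) (by omega)) hy hyJ hyJ'
    · intro z hz hz2
      have h1 := hleq z hz
      have h2 := hgep z hz
      exact hJ _ (by omega) (by omega)
    · intro z hz hz2
      have h1 := hleq z hz
      have h2 := hgep z hz
      exact hJ _ (by omega) (by omega)

end Line

end Pool.Agent.FRG
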