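/-
FRG/Tower: an abstract tower of descents (wreath recursion k = (a^w(k), k)) with many levels does not
exist in a group of exponent `2 ^ k`.  Used by Results/MP_1f3970_al.
-/
import Mathlib

namespace Pool.Agent.FRG

open Pointwise

variable {G X : Type*} [Group G] [MulAction G X]

/-- the elements which preserve the set `W` -/
def pres (G : Type*) {X : Type*} [Group G] [MulAction G X] (W : Set X) : Subgroup G where
  carrier := {g | ∀ w ∈ W, g • w ∈ W ∧ g⁻¹ • w ∈ W}
  one_mem' := fun w hw => by simpa using hw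
  mul_mem' := by
    intro a b ha hb w hw
    refine ⟨?_, ?_⟩
    · rw [mul_smul]; exact (ha _ (hb w hw).1).1
    · rw [mul_inv_rev, mul_smul]; exact (hb _ (ha w hw).2).2
  inv_mem' := by
    intro a ha w hw
    exact ⟨(ha w hw).2, by rw [inv_inv]; exact (ha w hw).1⟩

/-- the elements which fix every point of `W` -/
def fixs (G : Type*) {X : Type*} [Group G] [MulAction G X] (W : Set X) : Subgroup G where
  carrier := {g | ∀ w ∈ W, g • w = w}
  one_mem' := fun w _ => one_smul _ w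
  mul_mem' := by
    intro a b ha hb w hw
    rw [mul_smul, hb w hw, ha w hw]
  inv_mem' := by
    intro a ha w hw
    show a⁻¹ • w = w
    rw [inv_smul_eq_iff, ha w hw]

theorem mem_pres {W : Set X} {g : G} : g ∈ pres G W ↔ ∀ w ∈ W, g • w ∈ W ∧ g⁻¹ • w ∈ W := Iff.rfl

theorem mem_fixs {W : Set X} {g : G} : g ∈ fixs G W ↔ ∀ w ∈ W, g • w = w := Iff.rfl

/-- an element of order two on `W` which maps `W` to `W` preserves `W` -/
theorem pres_of_invol {W : Set X} {a : G} (h : ∀ w ∈ W, a • w ∈ W) (h2 : ∀ w ∈ W, a • a • w = w) :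
    a ∈ pres G W := by
  intro w hw
  refine ⟨h w hw, ?_⟩
  have : a⁻¹ • w = a • w := by rw [inv_smul_eq_iff, h2 w hw]
  rw [this]; exact h w hw

/-- period doubling -/
theorem dbl {W : Set X} {h g : G} (hg : ∀ w ∈ W, g • w ∈ W) (hh : ∀ w ∈ W, h • h • w = g • w)
    (hn : ∀ w ∈ W, h • w ∉ W) {m : ℕ} {w : X} (hw : w ∈ W)
    (hm : ∀ n : ℕ, g ^ n • w = w → 2 ^ m ∣ n) : ∀ n : ℕ, h ^ n • w = w → 2 ^ (m + 1) ∣ n := by
  have hgn : ∀ n : ℕ, g ^ n • w ∈ W := by
    intro n
    induction n with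
    | zero => simpa using hw
    | succ n ih => rw [pow_succ', mul_smul]; exact hg _ ih
  have h2n : ∀ n : ℕ, h ^ (2 * n) • w = g ^ n • w := by
    intro n
    induction n with
    | zero => simp
    | succ n ih =>
      have e : h ^ (2 * (n + 1)) = h * (h * h ^ (2 * n)) := by
        rw [← pow_succ', ← pow_succ']; congr 1
      rw [e, mul_smul, mul_smul, ih, hh _ (hgn n), pow_succ', mul_smul]
  intro n hnw
  rcases Nat.even_or_odd' n with ⟨c, hc | hc⟩
  · have h3 := hm c (by rw [← h2n c, ← hc]; exact hnw)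
    rw [hc, pow_succ']
    exact Nat.mul_dvd_mul_left 2 h3
  · exfalso
    rw [hc, pow_succ', mul_smul, h2n c] at hnw
    have := hn _ (hgn c)
    rw [hnw] at this
    exact this hw

/-- a tower of `L` descents -/
structure Tower (K : Subgroup G) (L : ℕ) (W : ℕ → Set X) (a c t : ℕ → G) : Prop where
  sub : ∀ i < L, W (i + 1) ⊆ W i
  tK : ∀ i < L, t i ∈ K
  ha : ∀ i < L, a (i + 1) = c i * t i * (c i)⁻¹
  hc : ∀ i < L, c (i + 1) = a i * c i
  aW : ∀ i ≤ L, ∀ w ∈ W i, a i • w ∈ W i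
  aa : ∀ i ≤ L, ∀ w ∈ W i, a i • a i • w = w
  ane : ∀ i ≤ L, ∀ w ∈ W i, a i • w ≠ w
  rW : ∀ i ≤ L, ∀ k ∈ K, ∀ w ∈ W i, (c i * k * (c i)⁻¹) • w ∈ W i
  out : ∀ i < L, ∀ w ∈ W (i + 1), a i • w ∉ W (i + 1)
  alt : ∀ i < L, ∀ k ∈ K, (∀ w ∈ W (i + 1), (c i * k * (c i)⁻¹) • w = w) ∨
    (∀ w ∈ W (i + 1), (c i * k * (c i)⁻¹) • w = a (i + 1) • w)
  ne : ∀ i ≤ L, (W i).Nonempty

namespace Tower

variable {K : Subgroup G} {L : ℕ} {W : ℕ → Set X} {a c t : ℕ → G}

/-- the action of `k` at level `i` -/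
def rho (c : ℕ → G) (i : ℕ) (k : G) : G := c i * k * (c i)⁻¹

theorem rho_mul (i : ℕ) (k k' : G) : rho c i (k * k') = rho c i k * rho c i k' := by
  simp [rho, mul_assoc]

theorem rho_inv (i : ℕ) (k : G) : rho c i k⁻¹ = (rho c i k)⁻¹ := by
  simp [rho, mul_assoc]

theorem rho_succ (T : Tower K L W a c t) {i : ℕ} (hi : i < L) (k : G) :
    rho c (i + 1) k = a i * rho c i k * (a i)⁻¹ := by
  simp only [rho, T.hc i hi, mul_inv_rev, mul_assoc]

theorem a_succ (T : Tower K L W a c t) {i : ℕ} (hi : i < L) : a (i + 1) = rho c i (t i) := T.ha i hi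

/-- the kernel of the character of level `i` -/
def Z (K : Subgroup G) (W : ℕ → Set X) (c : ℕ → G) (i : ℕ) : Set G :=
  {k | k ∈ K ∧ ∀ w ∈ W (i + 1), rho c i k • w = w}

theorem not_Z (T : Tower K L W a c t) {i : ℕ} (hi : i < L) {k : G} (hk : k ∈ K)
    (hz : k ∉ Z K W c i) : ∀ w ∈ W (i + 1), rho c i k • w = a (i + 1) • w := by
  rcases T.alt i hi k hk with h | h
  · exact absurd ⟨hk, h⟩ hz
  · exact h

theorem t_not_Z (T : Tower K L W a c t) {i : ℕ} (hi : i < L) : t i ∉ Z K W c i := by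
  rintro ⟨-, h⟩
  obtain ⟨w, hw⟩ := T.ne (i + 1) hi
  have := h w hw
  rw [← a_succ T hi] at this
  exact T.ane (i + 1) hi w hw this

theorem mul_Z (T : Tower K L W a c t) {i : ℕ} (hi : i < L) {k k' : G} (hk : k ∈ K) (hk' : k' ∈ K)
    (hz : k ∉ Z K W c i) (hz' : k' ∉ Z K W c i) : k * k' ∈ Z K W c i := by
  refine ⟨K.mul_mem hk hk', fun w hw => ?_⟩
  rw [rho_mul, mul_smul, not_Z T hi hk' hz' w hw,
    not_Z T hi hk hz _ (T.aW (i + 1) hi w hw), T.aa (i + 1) hi w hw]

theorem inv_mem_Z {i : ℕ} {k : G} (hz : k ∈ Z K W c i) : k⁻¹ ∈ Z K W c i := by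
  refine ⟨K.inv_mem hz.1, fun w hw => ?_⟩
  rw [rho_inv, inv_smul_eq_iff, hz.2 w hw]

theorem mul_mem_Z {i : ℕ} {k k' : G} (hz : k ∈ Z K W c i) (hz' : k' ∈ Z K W c i) :
    k * k' ∈ Z K W c i := by
  refine ⟨K.mul_mem hz.1 hz'.1, fun w hw => ?_⟩
  rw [rho_mul, mul_smul, hz'.2 w hw, hz.2 w hw]

/-- two different kernels are not comparable -/
theorem exists_sep (T : Tower K L W a c t) {i j : ℕ} (hi : i < L) (hj : j < L)
    (hne : Z K W c i ≠ Z K W c j) : ∃ s, s ∈ Z K W c i ∧ s ∉ Z K W c j := by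
  by_contra hcon
  push Not at hcon
  apply hne
  refine Set.Subset.antisymm hcon fun k hk => ?_
  by_contra hki
  have ht : t j ∉ Z K W c i := fun h => t_not_Z T hj (hcon _ h)
  have h1 := mul_Z T hi hk.1 (K.inv_mem (T.tK j hj)) hki
    (fun h => ht (by simpa using inv_mem_Z h))
  have h2 := hcon _ h1
  have h3 := mul_mem_Z (inv_mem_Z hk) h2
  have h4 := inv_mem_Z h3
  apply t_not_Z T hj
  simpa using h4

/-- the group of level `i` -/
def GG (K : Subgroup G) (a c : ℕ → G) (i : ℕ) : Subgroup G :=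
  Subgroup.closure (insert (a i) {g | ∃ k ∈ K, g = rho c i k})

theorem a_mem_GG (i : ℕ) : a i ∈ GG K a c i := Subgroup.subset_closure (Set.mem_insert _ _)

theorem rho_mem_GG (i : ℕ) {k : G} (hk : k ∈ K) : rho c i k ∈ GG K a c i :=
  Subgroup.subset_closure (Set.mem_insert_of_mem _ ⟨k, hk, rfl⟩)

theorem GG_succ (T : Tower K L W a c t) {i : ℕ} (hi : i < L) : GG K a c (i + 1) ≤ GG K a c i := by
  refine (Subgroup.closure_le _).2 fun g hg => ?_
  rcases hg with rfl | ⟨k, hk, rfl⟩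
  · rw [a_succ T hi]; exact rho_mem_GG i (T.tK i hi)
  · rw [rho_succ T hi]
    exact Subgroup.mul_mem _ (Subgroup.mul_mem _ (a_mem_GG i) (rho_mem_GG i hk))
      (Subgroup.inv_mem _ (a_mem_GG i))

theorem GG_le (T : Tower K L W a c t) {i j : ℕ} (hij : i ≤ j) (hj : j ≤ L) :
    GG K a c j ≤ GG K a c i := by
  induction j, hij using Nat.le_induction with
  | base => exact le_rfl
  | succ j hij ih => exact (GG_succ T (by omega)).trans (ih (by omega))

theorem W_le (T : Tower K L W a c t) {i j : ℕ} (hij : i ≤ j) (hj : j ≤ L) : W j ⊆ W i := by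
  induction j, hij using Nat.le_induction with
  | base => exact Set.Subset.refl _
  | succ j hij ih => exact (T.sub j (by omega)).trans (ih (by omega))

theorem a_pres (T : Tower K L W a c t) {i : ℕ} (hi : i ≤ L) : a i ∈ pres G (W i) :=
  pres_of_invol (T.aW i hi) (T.aa i hi)

theorem rho_pres (T : Tower K L W a c t) {i : ℕ} (hi : i ≤ L) {k : G} (hk : k ∈ K) :
    rho c i k ∈ pres G (W i) := by
  intro w hw
  refine ⟨T.rW i hi k hk w hw, ?_⟩
  rw [← rho_inv]
  exact T.rW i hi _ (K.inv_mem hk) w hw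

theorem GG_pres (T : Tower K L W a c t) {i : ℕ} (hi : i ≤ L) : GG K a c i ≤ pres G (W i) := by
  refine (Subgroup.closure_le _).2 fun g hg => ?_
  rcases hg with rfl | ⟨k, hk, rfl⟩
  · exact a_pres T hi
  · exact rho_pres T hi hk

/-- the statement: some element of level `i` has a point whose period is divisible by `2 ^ m` -/
def Per (K : Subgroup G) (W : ℕ → Set X) (a c : ℕ → G) (i m : ℕ) : Prop :=
  ∃ g ∈ GG K a c i, ∃ w ∈ W i, ∀ n : ℕ, g ^ n • w = w → 2 ^ m ∣ n

theorem Per_mono (T : Tower K L W a c t) {i j m : ℕ} (hij : i ≤ j) (hj : j ≤ L)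
    (h : Per K W a c j m) : Per K W a c i m := by
  obtain ⟨g, hg, w, hw, h⟩ := h
  exact ⟨g, GG_le T hij hj hg, w, W_le T hij hj hw, h⟩

/-- constant stretches -/
theorem stretch (T : Tower K L W a c t) {κ : G} (hκ : κ ∈ K) (m : ℕ) : ∀ i, i + m ≤ L →
    (∀ j, i ≤ j → j < i + m → κ ∉ Z K W c j) → ∀ w ∈ W (i + m),
    (∀ n : ℕ, (a i * rho c i κ) ^ n • w = w → 2 ^ m ∣ n) ∧
    (∀ n : ℕ, (rho c i κ * a i) ^ n • w = w → 2 ^ m ∣ n) := by
  induction m with
  | zero => intro i _ _ w _; exact ⟨fun n _ => by simp, fun n _ => by simp⟩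
  | succ m ih =>
    intro i hi hz w hw
    have hiL : i < L := by omega
    have e : i + (m + 1) = (i + 1) + m := by ring
    rw [e] at hw
    obtain ⟨h1, h2⟩ := ih (i + 1) (by omega) (fun j hj hj' => hz j (by omega) (by omega)) w hw
    have hact := not_Z T hiL hκ (hz i le_rfl (by omega))
    have hwW : w ∈ W (i + 1) := W_le T (by omega) (by omega) hw
    have hinv : ∀ w ∈ W i, (a i)⁻¹ • w = a i • w := fun w hw => by
      rw [inv_smul_eq_iff, T.aa i hiL.le w hw]
    -- `rho i κ • a i • w = a i • rho (i+1) κ • w`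
    have hra : ∀ w ∈ W (i + 1), rho c i κ • a i • w = a i • rho c (i + 1) κ • w := by
      intro w hw
      have hwi := T.sub i hiL hw
      rw [rho_succ T hiL, mul_smul, mul_smul, hinv w hwi]
      have h3 : rho c i κ • a i • w ∈ W i :=
        T.rW i hiL.le κ hκ _ (T.aW i hiL.le w hwi)
      rw [T.aa i hiL.le _ h3]
    have hρW : ∀ w ∈ W (i + 1), rho c (i + 1) κ • w ∈ W (i + 1) := T.rW (i + 1) hiL κ hκ
    refine ⟨?_, ?_⟩
    · refine dbl (W := W (i + 1)) (g := rho c (i + 1) κ * a (i + 1)) ?_ ?_ ?_ hwW h2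
      · intro w hw
        rw [mul_smul]
        exact hρW _ (T.aW (i + 1) hiL w hw)
      · intro w hw
        have h4 := T.aW (i + 1) hiL w hw
        rw [mul_smul, mul_smul, hact w hw, hra _ h4,
          T.aa i hiL.le _ (T.sub i hiL (hρW _ h4)), mul_smul]
      · intro w hw
        rw [mul_smul, hact w hw]
        exact T.out i hiL _ (T.aW (i + 1) hiL w hw)
    · refine dbl (W := W (i + 1)) (g := a (i + 1) * rho c (i + 1) κ) ?_ ?_ ?_ hwW h1
      · intro w hw
        rw [mul_smul]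
        exact T.aW (i + 1) hiL _ (hρW w hw)
      · intro w hw
        rw [mul_smul, mul_smul, hra w hw, T.aa i hiL.le _ (T.sub i hiL (hρW _ hw)),
          hact _ (hρW w hw), mul_smul]
      · intro w hw
        rw [mul_smul, hra w hw]
        exact T.out i hiL _ (hρW w hw)

section level

variable (T : Tower K L W a c t) {l : ℕ} (hl : l < L)

/-- preserving both halves of level `l` -/
def MM (G : Type*) {X : Type*} [Group G] [MulAction G X] (W : ℕ → Set X) (a : ℕ → G)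
    (l : ℕ) : Subgroup G :=
  pres G (W (l + 1)) ⊓ pres G ((fun w => a l • w) '' W (l + 1))

/-- preserving the first half and fixing the second half of level `l` -/
def RR (K : Subgroup G) (W : ℕ → Set X) (a c : ℕ → G) (l : ℕ) : Subgroup G :=
  (pres G (W (l + 1)) ⊓ fixs G ((fun w => a l • w) '' W (l + 1))) ⊓ GG K a c l

theorem conj_RR {g u : G} (hg : g ∈ MM G W a l) (hgG : g ∈ GG K a c l) (hu : u ∈ RR K W a c l) :
    g * u * g⁻¹ ∈ RR K W a c l := by
  obtain ⟨⟨hu1, hu2⟩, hu3⟩ := hu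
  refine ⟨⟨?_, ?_⟩, ?_⟩
  · exact Subgroup.mul_mem _ (Subgroup.mul_mem _ hg.1 hu1) (Subgroup.inv_mem _ hg.1)
  · intro w hw
    rw [mul_smul, mul_smul, hu2 _ (hg.2 w hw).2, smul_inv_smul]
  · exact Subgroup.mul_mem _ (Subgroup.mul_mem _ hgG hu3) (Subgroup.inv_mem _ hgG)

include T hl

theorem a_inv {w : X} (hw : w ∈ W l) : (a l)⁻¹ • w = a l • w := by
  rw [inv_smul_eq_iff, T.aa l hl.le w hw]

theorem rho_MM0 {k : G} (hk : k ∈ K) : rho c l k ∈ MM G W a l := by
  have key : ∀ k ∈ K, (∀ w ∈ W (l + 1), rho c l k • w ∈ W (l + 1)) ∧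
      (∀ w ∈ (fun w => a l • w) '' W (l + 1), rho c l k • w ∈ (fun w => a l • w) '' W (l + 1)) := by
    intro k hk
    refine ⟨fun w hw => ?_, ?_⟩
    · rcases T.alt l hl k hk with h | h
      · have := h w hw
        change rho c l k • w = w at this
        rw [this]; exact hw
      · have := h w hw
        change rho c l k • w = _ at this
        rw [this]; exact T.aW (l + 1) hl w hw
    · rintro _ ⟨w, hw, rfl⟩
      have hwl := T.sub l hl hw
      refine ⟨rho c (l + 1) k • w, T.rW (l + 1) hl k hk w hw, ?_⟩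
      show a l • rho c (l + 1) k • w = rho c l k • a l • w
      have h3 : rho c l k • a l • w ∈ W l := T.rW l hl.le k hk _ (T.aW l hl.le w hwl)
      rw [rho_succ T hl, mul_smul, mul_smul, a_inv T hl hwl, T.aa l hl.le _ h3]
  refine ⟨fun w hw => ⟨(key k hk).1 w hw, ?_⟩, fun w hw => ⟨(key k hk).2 w hw, ?_⟩⟩
  · rw [← rho_inv]; exact (key _ (K.inv_mem hk)).1 w hw
  · rw [← rho_inv]; exact (key _ (K.inv_mem hk)).2 w hw

theorem rho_MM1 {k : G} (hk : k ∈ K) : rho c (l + 1) k ∈ MM G W a l := by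
  have key : ∀ k ∈ K, (∀ w ∈ (fun w => a l • w) '' W (l + 1),
      rho c (l + 1) k • w ∈ (fun w => a l • w) '' W (l + 1)) := by
    rintro k hk _ ⟨w, hw, rfl⟩
    refine ⟨rho c l k • w, ((rho_MM0 T hl hk).1 w hw).1, ?_⟩
    show a l • rho c l k • w = rho c (l + 1) k • a l • w
    rw [rho_succ T hl, mul_smul, mul_smul, inv_smul_smul]
  refine ⟨rho_pres T hl hk, fun w hw => ⟨key k hk w hw, ?_⟩⟩
  rw [← rho_inv]; exact key _ (K.inv_mem hk) w hw

theorem rho_RR1 {k : G} (hk : k ∈ Z K W c l) : rho c (l + 1) k ∈ RR K W a c l := by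
  refine ⟨⟨rho_pres T hl hk.1, ?_⟩, GG_succ T hl (rho_mem_GG _ hk.1)⟩
  rintro _ ⟨w, hw, rfl⟩
  show rho c (l + 1) k • a l • w = a l • w
  rw [rho_succ T hl, mul_smul, mul_smul, inv_smul_smul, hk.2 w hw]

theorem both_MM {i : ℕ} (hi : l + 1 ≤ i) (hiL : i ≤ L) :
    a i ∈ MM G W a l ∧ ∀ k ∈ K, rho c i k ∈ MM G W a l := by
  induction i, hi using Nat.le_induction with
  | base =>
    exact ⟨by rw [a_succ T hl]; exact rho_MM0 T hl (T.tK l hl), fun k hk => rho_MM1 T hl hk⟩
  | succ i hi ih =>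
    obtain ⟨h1, h2⟩ := ih (by omega)
    refine ⟨by rw [a_succ T (by omega)]; exact h2 _ (T.tK i (by omega)), fun k hk => ?_⟩
    rw [rho_succ T (by omega)]
    exact Subgroup.mul_mem _ (Subgroup.mul_mem _ h1 (h2 k hk)) (Subgroup.inv_mem _ h1)

theorem rho_RR {i : ℕ} (hi : l + 1 ≤ i) (hiL : i ≤ L) {k : G} (hk : k ∈ Z K W c l) :
    rho c i k ∈ RR K W a c l := by
  induction i, hi using Nat.le_induction with
  | base => exact rho_RR1 T hl hk
  | succ i hi ih =>
    rw [rho_succ T (by omega)]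
    exact conj_RR (both_MM T hl hi (by omega)).1
      (GG_le T (by omega) (by omega) (a_mem_GG i)) (ih (by omega))

end level

/-- the elements which agree on `W i` with an element of `RR` -/
def Gam (K : Subgroup G) (W : ℕ → Set X) (a c : ℕ → G) (l i : ℕ) : Subgroup G where
  carrier := {g | g ∈ pres G (W i) ∧ ∃ u ∈ RR K W a c l, ∀ w ∈ W i, u • w = g • w}
  one_mem' := ⟨Subgroup.one_mem _, 1, Subgroup.one_mem _, fun w _ => rfl⟩
  mul_mem' := by
    rintro g g' ⟨hg, u, hu, h⟩ ⟨hg', u', hu', h'⟩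
    refine ⟨Subgroup.mul_mem _ hg hg', u * u', Subgroup.mul_mem _ hu hu', fun w hw => ?_⟩
    rw [mul_smul, mul_smul, h' w hw, h _ (hg' w hw).1]
  inv_mem' := by
    rintro g ⟨hg, u, hu, h⟩
    refine ⟨Subgroup.inv_mem _ hg, u⁻¹, Subgroup.inv_mem _ hu, fun w hw => ?_⟩
    rw [inv_smul_eq_iff, h _ (hg w hw).2, smul_inv_smul]

theorem mem_Gam {l i : ℕ} {g : G} : g ∈ Gam K W a c l i ↔
    g ∈ pres G (W i) ∧ ∃ u ∈ RR K W a c l, ∀ w ∈ W i, u • w = g • w := Iff.rfl

theorem RR_Gam {l i : ℕ} {g : G} (hg : g ∈ RR K W a c l) (hp : g ∈ pres G (W i)) :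
    g ∈ Gam K W a c l i := ⟨hp, g, hg, fun _ _ => rfl⟩

theorem conj_Gam {l i : ℕ} {h g : G} (hh : h ∈ MM G W a l) (hG : h ∈ GG K a c l)
    (hp : h ∈ pres G (W i)) (hg : g ∈ Gam K W a c l i) : h * g * h⁻¹ ∈ Gam K W a c l i := by
  obtain ⟨hg1, u, hu, hug⟩ := hg
  refine ⟨Subgroup.mul_mem _ (Subgroup.mul_mem _ hp hg1) (Subgroup.inv_mem _ hp),
    h * u * h⁻¹, conj_RR hh hG hu, fun w hw => ?_⟩
  rw [mul_smul, mul_smul, mul_smul, mul_smul, hug _ (hp w hw).2]

theorem comm_Z (T : Tower K L W a c t) {l : ℕ} (hl : l < L) {x y : G} (hx : x ∈ K) (hy : y ∈ K) :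
    x * y * x⁻¹ * y⁻¹ ∈ Z K W c l := by
  by_cases hxz : x ∈ Z K W c l
  · by_cases hyz : y ∈ Z K W c l
    · exact mul_mem_Z (mul_mem_Z (mul_mem_Z hxz hyz) (inv_mem_Z hxz)) (inv_mem_Z hyz)
    · -- y x⁻¹ y⁻¹ : y x⁻¹ not in Z, times y⁻¹ not in Z
      have h1 : y * x⁻¹ ∉ Z K W c l := fun h => hyz (by simpa using mul_mem_Z h hxz)
      have h2 : y⁻¹ ∉ Z K W c l := fun h => hyz (by simpa using inv_mem_Z h)
      have h3 := mul_Z T hl (K.mul_mem hy (K.inv_mem hx)) (K.inv_mem hy) h1 h2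
      have h4 := mul_mem_Z hxz h3
      simpa [mul_assoc] using h4
  · have hxi : x⁻¹ ∉ Z K W c l := fun h => hxz (by simpa using inv_mem_Z h)
    by_cases hyz : y ∈ Z K W c l
    · have h1 : x * y ∉ Z K W c l := fun h => hxz (by simpa using mul_mem_Z h (inv_mem_Z hyz))
      have h3 := mul_Z T hl (K.mul_mem hx hy) (K.inv_mem hx) h1 hxi
      exact mul_mem_Z h3 (inv_mem_Z hyz)
    · have hyi : y⁻¹ ∉ Z K W c l := fun h => hyz (by simpa using inv_mem_Z h)
      have h1 := mul_Z T hl hx hy hxz hyz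
      have h2 := mul_Z T hl (K.inv_mem hx) (K.inv_mem hy) hxi hyi
      simpa [mul_assoc] using mul_mem_Z h1 h2

/-- all commutators of `a j` with the letters are realised -/
theorem comm_Gam (T : Tower K L W a c t) {l : ℕ} (hl : l + 1 < L)
    (hne : Z K W c l ≠ Z K W c (l + 1)) {j : ℕ} (hj : l + 2 ≤ j) (hjL : j ≤ L) :
    ∀ k ∈ K, a j * rho c j k * (a j)⁻¹ * (rho c j k)⁻¹ ∈ Gam K W a c l j := by
  have hl' : l < L := by omega
  induction j, hj using Nat.le_induction with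
  | base =>
    intro k hk
    obtain ⟨s, hs, hs'⟩ := exists_sep T hl' hl hne
    have haG : a (l + 2) ∈ Gam K W a c l (l + 2) := by
      refine ⟨a_pres T hjL, rho c (l + 1) s, rho_RR1 T hl' hs, fun w hw => ?_⟩
      exact not_Z T hl hs.1 hs' w hw
    have h2 := (both_MM T hl' (i := l + 2) (by omega) hjL).2 k hk
    have h3 := conj_Gam h2 (GG_le T (by omega) hjL (rho_mem_GG (l + 2) hk))
      (rho_pres T hjL hk) (Subgroup.inv_mem _ haG)
    have h4 := Subgroup.mul_mem _ haG h3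
    simpa [mul_assoc] using h4
  | succ j hj ih =>
    intro k hk
    have hjl : j < L := by omega
    have ih' := ih (by omega)
    obtain ⟨hM1, hM2⟩ := both_MM T hl' (i := j) (by omega) (by omega)
    set x := rho c j (t j) with hx
    set y := rho c j k with hy
    set A := a j with hA
    have hγ : A * y * A⁻¹ * y⁻¹ ∈ Gam K W a c l j := ih' k hk
    have hxM : x ∈ MM G W a l := hM2 _ (T.tK j hjl)
    have hxγ : x * (A * y * A⁻¹ * y⁻¹) * x⁻¹ ∈ Gam K W a c l j :=
      conj_Gam hxM (GG_le T (by omega) (by omega) (rho_mem_GG j (T.tK j hjl)))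
        (rho_pres T (by omega) (T.tK j hjl)) hγ
    have hxy : x * y * x⁻¹ * y⁻¹ ∈ Gam K W a c l j := by
      have e : x * y * x⁻¹ * y⁻¹ = rho c j (t j * k * (t j)⁻¹ * k⁻¹) := by
        simp only [rho_mul, rho_inv, hx, hy]
      have hz := comm_Z T hl' (T.tK j hjl) hk
      rw [e]
      exact RR_Gam (rho_RR T hl' (by omega) (by omega) hz) (rho_pres T (by omega) hz.1)
    have hall : a (j + 1) * rho c (j + 1) k * (a (j + 1))⁻¹ * (rho c (j + 1) k)⁻¹
        ∈ Gam K W a c l j := by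
      have e : a (j + 1) * rho c (j + 1) k * (a (j + 1))⁻¹ * (rho c (j + 1) k)⁻¹ =
          (x * (A * y * A⁻¹ * y⁻¹) * x⁻¹) * (x * y * x⁻¹ * y⁻¹) * (A * y * A⁻¹ * y⁻¹)⁻¹ := by
        rw [a_succ T hjl, rho_succ T hjl]
        simp only [← hx, ← hy, ← hA]
        group
      rw [e]
      exact Subgroup.mul_mem _ (Subgroup.mul_mem _ hxγ hxy) (Subgroup.inv_mem _ hγ)
    obtain ⟨-, u, hu, hug⟩ := hall
    refine ⟨?_, u, hu, fun w hw => hug w (T.sub j hjl hw)⟩
    have h1 := a_pres T (i := j + 1) hjL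
    have h2 := rho_pres T (i := j + 1) hjL hk
    exact Subgroup.mul_mem _ (Subgroup.mul_mem _ (Subgroup.mul_mem _ h1 h2)
      (Subgroup.inv_mem _ h1)) (Subgroup.inv_mem _ h2)

/-- the whole group of level `j + 1` is realised -/
theorem GG_Gam (T : Tower K L W a c t) {l : ℕ} (hl : l + 1 < L)
    (hne : Z K W c l ≠ Z K W c (l + 1)) {j : ℕ} (hj : l + 2 ≤ j) (hjL : j < L)
    (hne' : Z K W c j ≠ Z K W c l) : GG K a c (j + 1) ≤ Gam K W a c l (j + 1) := by
  have hl' : l < L := by omega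
  obtain ⟨s, hs, hs'⟩ := exists_sep T hl' hjL hne'.symm
  obtain ⟨d, hd, hd'⟩ := exists_sep T hjL hl' hne'
  refine (Subgroup.closure_le _).2 fun g hg => ?_
  rcases hg with rfl | ⟨k, hk, rfl⟩
  · refine ⟨a_pres T hjL, rho c j s, rho_RR T hl' (by omega) hjL.le hs, fun w hw => ?_⟩
    exact not_Z T hjL hs.1 hs' w hw
  · by_cases hkz : k ∈ Z K W c l
    · exact RR_Gam (rho_RR T hl' (by omega) hjL hkz) (rho_pres T hjL hk)
    · have hkd := mul_Z T hl' hk hd.1 hkz hd'
      have h1 := comm_Gam T hl hne hj hjL.le k hk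
      have h2 : rho c j (k * d) ∈ Gam K W a c l j :=
        RR_Gam (rho_RR T hl' (by omega) hjL.le hkd) (rho_pres T hjL.le hkd.1)
      obtain ⟨-, u, hu, hug⟩ := Subgroup.mul_mem _ h1 h2
      refine ⟨rho_pres T hjL hk, u, hu, fun w hw => ?_⟩
      rw [hug w (T.sub j hjL hw)]
      rw [rho_mul, rho_succ T hjL]
      simp only [mul_smul]
      have h3 := hd.2 w hw
      rw [h3, inv_smul_smul]

/-- doubling -/
theorem double (T : Tower K L W a c t) {l : ℕ} (hl : l + 1 < L)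
    (hne : Z K W c l ≠ Z K W c (l + 1)) {j : ℕ} (hj : l + 2 ≤ j) (hjL : j < L)
    (hne' : Z K W c j ≠ Z K W c l) {m : ℕ} (h : Per K W a c (j + 1) m) :
    Per K W a c l (m + 1) := by
  have hl' : l < L := by omega
  obtain ⟨g, hg, w, hw, hm⟩ := h
  obtain ⟨hgp, u, hu, hug⟩ := GG_Gam T hl hne hj hjL hne' hg
  have hsub : W (j + 1) ⊆ W (l + 1) := W_le T (by omega) hjL
  refine ⟨a l * u, Subgroup.mul_mem _ (a_mem_GG l) hu.2, w, T.sub l hl' (hsub hw), ?_⟩
  refine dbl (W := W (j + 1)) (g := g) (fun w hw => (hgp w hw).1) ?_ ?_ hw hm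
  · intro w hw
    have h1 : u • w ∈ W (l + 1) := (hu.1.1 w (hsub hw)).1
    rw [mul_smul, mul_smul, hu.1.2 _ ⟨u • w, h1, rfl⟩, T.aa l hl'.le _ (T.sub l hl' h1), hug w hw]
  · intro w hw hcon
    have h1 : u • w ∈ W (l + 1) := (hu.1.1 w (hsub hw)).1
    rw [mul_smul] at hcon
    exact T.out l hl' _ h1 (hsub hcon)

/-- **No long tower** in a group of exponent `2 ^ k`. -/
theorem false_of_exp (T : Tower K L W a c t) {k : ℕ} (hexp : ∀ g : G, g ^ (2 ^ k) = 1)
    (hL : (k + 1) * (2 * k + 2) ≤ L) : False := by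
  have hno : ∀ i, ¬ Per K W a c i (k + 1) := by
    rintro i ⟨g, -, w, -, h⟩
    have h1 := h (2 ^ k) (by rw [hexp, one_smul])
    have h2 := Nat.le_of_dvd (by positivity) h1
    rw [pow_succ] at h2
    have h3 : 0 < 2 ^ k := by positivity
    omega
  -- there is no constant stretch of length `k + 1`
  have hst : ∀ i, i + (k + 1) ≤ L → ∃ j, i ≤ j ∧ j < i + (k + 1) ∧ t i ∈ Z K W c j := by
    intro i hi
    by_contra hcon
    push Not at hcon
    obtain ⟨w, hw⟩ := T.ne (i + (k + 1)) hi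
    have h1 := (stretch T (T.tK i (by omega)) (k + 1) i hi hcon w hw).1
    exact hno i ⟨_, Subgroup.mul_mem _ (a_mem_GG i) (rho_mem_GG i (T.tK i (by omega))), w,
      W_le T (by omega) hi hw, h1⟩
  have hstep : ∀ l m, l + (2 * k + 2) ≤ L → Per K W a c (l + (2 * k + 2)) m →
      Per K W a c l (m + 1) := by
    intro l m hlL hper
    -- first change
    obtain ⟨l', hl1, hl2, hne⟩ : ∃ l', l ≤ l' ∧ l' < l + k ∧ Z K W c l' ≠ Z K W c (l' + 1) := by
      by_contra hcon
      push Not at hcon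
      have hall : ∀ d, d ≤ k → Z K W c (l + d) = Z K W c l := by
        intro d
        induction d with
        | zero => intro _; rfl
        | succ d ih =>
          intro hd
          rw [← ih (by omega)]
          exact (hcon (l + d) (by omega) (by omega)).symm
      obtain ⟨j, hj1, hj2, hj3⟩ := hst l (by omega)
      have h1 := hall (j - l) (by omega)
      rw [show l + (j - l) = j by omega] at h1
      rw [h1] at hj3
      exact t_not_Z T (by omega) hj3
    -- a later level with another kernel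
    obtain ⟨j, hj1, hj2, hne'⟩ : ∃ j, l' + 2 ≤ j ∧ j < l' + 2 + (k + 1) ∧
        Z K W c j ≠ Z K W c l' := by
      by_contra hcon
      push Not at hcon
      obtain ⟨j, hj1, hj2, hj3⟩ := hst (l' + 2) (by omega)
      rw [hcon j hj1 hj2, ← hcon (l' + 2) le_rfl (by omega)] at hj3
      exact t_not_Z T (by omega) hj3
    exact Per_mono T hl1 (by omega) (double T (by omega) hne hj1 (by omega) hne'
      (Per_mono T (by omega) hlL hper))
  have hall : ∀ d, d ≤ k + 1 → Per K W a c ((k + 1 - d) * (2 * k + 2)) d := by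
    intro d
    induction d with
    | zero =>
      intro _
      obtain ⟨w, hw⟩ := T.ne ((k + 1 - 0) * (2 * k + 2)) (by simpa using hL)
      exact ⟨1, Subgroup.one_mem _, w, hw, fun n _ => by simp⟩
    | succ d ih =>
      intro hd
      have e : (k + 1 - d) * (2 * k + 2) = (k + 1 - (d + 1)) * (2 * k + 2) + (2 * k + 2) := by
        have : k + 1 - d = (k + 1 - (d + 1)) + 1 := by omega
        rw [this]; ring
      have h1 := ih (by omega)
      rw [e] at h1
      refine hstep _ d ?_ h1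
      rw [← e]
      exact le_trans (Nat.mul_le_mul_right _ (Nat.sub_le _ _)) hL
  have := hall (k + 1) le_rfl
  simp only [Nat.sub_self, Nat.zero_mul] at this
  exact hno 0 this

end Tower

end Pool.Agent.FRG
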