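/-
FRG/Level: levels (a line whose even edges are a perfect matching by one element `a`, the other edges
carry the letters of `K`) and the descent to the next level.
-/
import Pool.Agent.Lib.FRG.Line
import Pool.Agent.Lib.FRG.Tower

namespace Pool.Agent.FRG

variable {G X : Type*} [Group G] [MulAction G X]

/-- a level -/
structure Lev (K : Subgroup G) (v : ℤ → X) (J : Set ℤ) (a c : G) : Prop where
  ord : J.OrdConnected
  inj : Set.InjOn v J
  pair : ∀ i : ℤ, 2 * i ∈ J ↔ 2 * i + 1 ∈ J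
  aL : ∀ i : ℤ, 2 * i ∈ J → a • v (2 * i) = v (2 * i + 1)
  aR : ∀ i : ℤ, 2 * i ∈ J → a • v (2 * i + 1) = v (2 * i)
  frag : ∀ i : ℤ, ∀ k ∈ K, 2 * i + 1 ∈ J → 2 * i + 2 ∈ J →
    ((c * k * c⁻¹) • v (2 * i + 1) = v (2 * i + 1) ∧ (c * k * c⁻¹) • v (2 * i + 2) = v (2 * i + 2)) ∨
    ((c * k * c⁻¹) • v (2 * i + 1) = v (2 * i + 2) ∧ (c * k * c⁻¹) • v (2 * i + 2) = v (2 * i + 1))
  endR : ∀ i : ℤ, ∀ k ∈ K, 2 * i + 1 ∈ J → 2 * i + 2 ∉ J → (c * k * c⁻¹) • v (2 * i + 1) = v (2 * i + 1)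
  endL : ∀ i : ℤ, ∀ k ∈ K, 2 * i + 1 ∉ J → 2 * i + 2 ∈ J → (c * k * c⁻¹) • v (2 * i + 2) = v (2 * i + 2)
  act : ∀ i : ℤ, 2 * i + 1 ∈ J → 2 * i + 2 ∈ J → ∃ k ∈ K, (c * k * c⁻¹) • v (2 * i + 1) = v (2 * i + 2)
  ne : J.Nonempty

/-- the letter `k` moves along the edge `2 m + 1, 2 m + 2` -/
def chi (v : ℤ → X) (c k : G) (m : ℤ) : Prop := (c * k * c⁻¹) • v (2 * m + 1) = v (2 * m + 2)

/-- the parity shift -/
def par (j : ℤ) : ℤ := if j % 2 = 0 then 1 else 0

theorem par_even (i : ℤ) : par (2 * i) = 1 := by unfold par; rw [if_pos (by omega)]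

theorem par_odd (i : ℤ) : par (2 * i + 1) = 0 := by unfold par; rw [if_neg (by omega)]

namespace Lev

variable {K : Subgroup G} {v : ℤ → X} {J : Set ℤ} {a c : G}

/-- the nodes -/
def nodes (J : Set ℤ) : Set ℤ := {j | 2 * j ∈ J}

theorem nodes_ord (hv : Lev K v J a c) : (nodes J).OrdConnected :=
  ⟨fun _ hx _ hy _ hz => hv.ord.out hx hy ⟨by have := hz.1; omega, by have := hz.2; omega⟩⟩

theorem mem0 {j : ℤ} (h : j ∈ nodes J) : 2 * j ∈ J := h

theorem mem1 (hv : Lev K v J a c) {j : ℤ} (h : j ∈ nodes J) : 2 * j + 1 ∈ J := (hv.pair j).1 h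

theorem mem_par (hv : Lev K v J a c) {j : ℤ} (h : j ∈ nodes J) (i : ℤ) : 2 * j + par i ∈ J := by
  unfold par
  split
  · exact mem1 hv h
  · rw [add_zero]; exact h

theorem chi_swap (hv : Lev K v J a c) {m : ℤ} (hm : m ∈ nodes J) (hm' : m + 1 ∈ nodes J) {k : G}
    (hk : k ∈ K) (h : chi v c k m) : (c * k * c⁻¹) • v (2 * m + 2) = v (2 * m + 1) := by
  have h1 : 2 * m + 2 ∈ J := by
    have := mem0 hm'
    rwa [show 2 * (m + 1) = 2 * m + 2 by ring] at this
  rcases hv.frag m k hk (mem1 hv hm) h1 with h' | h'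
  · exfalso
    have h2 := h'.1
    rw [show (c * k * c⁻¹) • v (2 * m + 1) = v (2 * m + 2) from h] at h2
    have := hv.inj h1 (mem1 hv hm) h2
    omega
  · exact h'.2

theorem chi_fix (hv : Lev K v J a c) {m : ℤ} (hm : m ∈ nodes J) (hm' : m + 1 ∈ nodes J) {k : G}
    (hk : k ∈ K) (h : ¬ chi v c k m) : (c * k * c⁻¹) • v (2 * m + 1) = v (2 * m + 1) ∧
      (c * k * c⁻¹) • v (2 * m + 2) = v (2 * m + 2) := by
  have h1 : 2 * m + 2 ∈ J := by
    have := mem0 hm'
    rwa [show 2 * (m + 1) = 2 * m + 2 by ring] at this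
  rcases hv.frag m k hk (mem1 hv hm) h1 with h' | h'
  · exact h'
  · exact absurd h'.1 h

theorem ainvL (hv : Lev K v J a c) {i : ℤ} (h : i ∈ nodes J) : a⁻¹ • v (2 * i) = v (2 * i + 1) := by
  rw [inv_smul_eq_iff, hv.aR i h]

theorem ainvR (hv : Lev K v J a c) {i : ℤ} (h : i ∈ nodes J) : a⁻¹ • v (2 * i + 1) = v (2 * i) := by
  rw [inv_smul_eq_iff, hv.aL i h]

/-- the letters on the line of the nodes -/
def HH (K : Subgroup G) (a c : G) (j : ℤ) : Subgroup G :=
  if j % 2 = 0 then K.map (MulAut.conj c).toMonoidHom else K.map (MulAut.conj (a * c)).toMonoidHom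

theorem mem_HH_even {j : ℤ} (hj : j % 2 = 0) {g : G} :
    g ∈ HH K a c j ↔ ∃ k ∈ K, c * k * c⁻¹ = g := by
  unfold HH; rw [if_pos hj]; rfl

theorem mem_HH_odd {j : ℤ} (hj : ¬ j % 2 = 0) {g : G} :
    g ∈ HH K a c j ↔ ∃ k ∈ K, a * c * k * (a * c)⁻¹ = g := by
  unfold HH; rw [if_neg hj]; rfl

/-- the line of the nodes -/
theorem line (hv : Lev K v J a c) :
    Line (fun j => v (2 * j + par j)) (nodes J) (HH K a c) where
  ord := nodes_ord hv
  inj := by
    intro x hx y hy h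
    have h1 := hv.inj (mem_par hv hx x) (mem_par hv hy y) h
    unfold par at h1
    split at h1 <;> split at h1 <;> omega
  per := by
    intro x
    unfold HH
    by_cases h : x % 2 = 0
    · rw [if_pos h, if_pos (by omega)]
    · rw [if_neg h, if_neg (by omega)]
  frag := by
    intro x g hg hx hx'
    rcases Int.even_or_odd' x with ⟨i, rfl | rfl⟩
    · obtain ⟨k, hk, rfl⟩ := (mem_HH_even (by omega)).1 hg
      have e : 2 * (2 * i + 1) + par (2 * i + 1) = 2 * (2 * i) + 2 := by rw [par_odd]; ring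
      simp only [par_even, e]
      by_cases h : chi v c k (2 * i)
      · exact Or.inr ⟨h, chi_swap hv hx hx' hk h⟩
      · exact Or.inl (chi_fix hv hx hx' hk h)
    · obtain ⟨k, hk, rfl⟩ := (mem_HH_odd (by omega)).1 hg
      have e1 : 2 * (2 * i + 1) + par (2 * i + 1) = 2 * (2 * i + 1) := by rw [par_odd]; ring
      have e2 : 2 * (2 * i + 1 + 1) + par (2 * i + 1 + 1) = 2 * (2 * i + 1 + 1) + 1 := by
        rw [show (2 : ℤ) * i + 1 + 1 = 2 * (i + 1) by ring, par_even]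
      simp only [e1, e2]
      have hact : ∀ y : X, (a * c * k * (a * c)⁻¹) • y = a • (c * k * c⁻¹) • a⁻¹ • y := by
        intro y; simp only [← mul_smul]; congr 1; group
      rw [hact, hact, ainvL hv hx, ainvR hv hx']
      have e3 : (2 : ℤ) * (2 * i + 1 + 1) = 2 * (2 * i + 1) + 2 := by ring
      by_cases h : chi v c k (2 * i + 1)
      · right
        rw [show (c * k * c⁻¹) • v (2 * (2 * i + 1) + 1) = v (2 * (2 * i + 1) + 2) from h]
        have h1 := chi_swap hv hx hx' hk h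
        rw [e3, h1, ← e3, hv.aL _ hx', hv.aR _ hx]
        exact ⟨rfl, rfl⟩
      · left
        obtain ⟨h1, h2⟩ := chi_fix hv hx hx' hk h
        rw [h1, e3, h2, ← e3, hv.aL _ hx', hv.aR _ hx]
        exact ⟨rfl, rfl⟩
  endR := by
    intro x g hg hx hx'
    have hx2 : ¬ 2 * x + 2 ∈ J := fun h => hx' (by
      show 2 * (x + 1) ∈ J
      rw [show 2 * (x + 1) = 2 * x + 2 by ring]; exact h)
    rcases Int.even_or_odd' x with ⟨i, rfl | rfl⟩
    · obtain ⟨k, hk, rfl⟩ := (mem_HH_even (by omega)).1 hg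
      simp only [par_even]
      exact hv.endR _ k hk (mem1 hv hx) hx2
    · obtain ⟨k, hk, rfl⟩ := (mem_HH_odd (by omega)).1 hg
      have e1 : 2 * (2 * i + 1) + par (2 * i + 1) = 2 * (2 * i + 1) := by rw [par_odd]; ring
      simp only [e1]
      have hact : ∀ y : X, (a * c * k * (a * c)⁻¹) • y = a • (c * k * c⁻¹) • a⁻¹ • y := by
        intro y; simp only [← mul_smul]; congr 1; group
      rw [hact, ainvL hv hx, hv.endR _ k hk (mem1 hv hx) hx2, hv.aR _ hx]
  endL := by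
    intro x g hg hx hx'
    have hx1 : ¬ 2 * x + 1 ∈ J := fun h => hx ((hv.pair x).2 h)
    have hx2 : 2 * x + 2 ∈ J := by
      have := mem0 hx'
      rwa [show 2 * (x + 1) = 2 * x + 2 by ring] at this
    rcases Int.even_or_odd' x with ⟨i, rfl | rfl⟩
    · obtain ⟨k, hk, rfl⟩ := (mem_HH_even (by omega)).1 hg
      have e : 2 * (2 * i + 1) + par (2 * i + 1) = 2 * (2 * i) + 2 := by rw [par_odd]; ring
      simp only [e]
      exact hv.endL _ k hk hx1 hx2
    · obtain ⟨k, hk, rfl⟩ := (mem_HH_odd (by omega)).1 hg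
      have e2 : 2 * (2 * i + 1 + 1) + par (2 * i + 1 + 1) = 2 * (2 * i + 1 + 1) + 1 := by
        rw [show (2 : ℤ) * i + 1 + 1 = 2 * (i + 1) by ring, par_even]
      have e3 : (2 : ℤ) * (2 * i + 1 + 1) = 2 * (2 * i + 1) + 2 := by ring
      simp only [e2]
      have hact : ∀ y : X, (a * c * k * (a * c)⁻¹) • y = a • (c * k * c⁻¹) • a⁻¹ • y := by
        intro y; simp only [← mul_smul]; congr 1; group
      rw [hact, ainvR hv hx', e3, hv.endL _ k hk hx1 hx2, ← e3, hv.aL _ hx']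
  act := by
    intro x hx hx'
    have hx2 : 2 * x + 2 ∈ J := by
      have := mem0 hx'
      rwa [show 2 * (x + 1) = 2 * x + 2 by ring] at this
    obtain ⟨k, hk, h⟩ := hv.act x (mem1 hv hx) hx2
    rcases Int.even_or_odd' x with ⟨i, rfl | rfl⟩
    · refine ⟨c * k * c⁻¹, (mem_HH_even (by omega)).2 ⟨k, hk, rfl⟩, ?_⟩
      have e : 2 * (2 * i + 1) + par (2 * i + 1) = 2 * (2 * i) + 2 := by rw [par_odd]; ring
      simp only [par_even, e]
      exact h
    · refine ⟨a * c * k * (a * c)⁻¹, (mem_HH_odd (by omega)).2 ⟨k, hk, rfl⟩, ?_⟩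
      have e1 : 2 * (2 * i + 1) + par (2 * i + 1) = 2 * (2 * i + 1) := by rw [par_odd]; ring
      have e2 : 2 * (2 * i + 1 + 1) + par (2 * i + 1 + 1) = 2 * (2 * i + 1 + 1) + 1 := by
        rw [show (2 : ℤ) * i + 1 + 1 = 2 * (i + 1) by ring, par_even]
      have e3 : (2 : ℤ) * (2 * i + 1 + 1) = 2 * (2 * i + 1) + 2 := by ring
      simp only [e1, e2]
      have hact : ∀ y : X, (a * c * k * (a * c)⁻¹) • y = a • (c * k * c⁻¹) • a⁻¹ • y := by
        intro y; simp only [← mul_smul]; congr 1; group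
      rw [hact, ainvL hv hx, h, ← e3, hv.aL _ hx']

/-- the letters of the edges of one class agree -/
theorem chi_const (hv : Lev K v J a c) {n : ℕ} (hexp : ∀ g : G, g ^ (2 ^ n) = 1) {x0 : ℤ}
    (hx0 : x0 ∈ nodes J) (hx0' : x0 + 1 ∈ nodes J) : ∃ e, e ∈ nodes J ∧ e + 1 ∈ nodes J ∧
      (∀ y, (2 : ℤ) ∣ y - e → y ∈ nodes J → y + 1 ∈ nodes J → ∀ k ∈ K, chi v c k e ↔ chi v c k y) ∧
      (∀ z ∈ nodes J, (2 : ℤ) ∣ z - e → z + 1 ∈ nodes J) ∧
      (∀ z ∈ nodes J, (2 : ℤ) ∣ z - e - 1 → z - 1 ∈ nodes J) := by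
  obtain ⟨e, he, he', hS, h1, h2⟩ := Line.pm (line hv) hexp hx0 hx0'
  refine ⟨e, he, he', ?_, h1, h2⟩
  intro y hy hyJ hyJ' k hk
  -- translation of activity
  have tr : ∀ x : ℤ, x ∈ nodes J → x + 1 ∈ nodes J → ∀ k ∈ K,
      (x % 2 = 0 → (Act (fun j => v (2 * j + par j)) (nodes J) (c * k * c⁻¹) x ↔ chi v c k x)) ∧
      (¬ x % 2 = 0 → (Act (fun j => v (2 * j + par j)) (nodes J) (a * c * k * (a * c)⁻¹) x ↔
        chi v c k x)) := by
    intro x hx hx' k hk
    refine ⟨fun hpar => ?_, fun hpar => ?_⟩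
    · obtain ⟨i, rfl⟩ : ∃ i, x = 2 * i := ⟨x / 2, by omega⟩
      have e : 2 * (2 * i + 1) + par (2 * i + 1) = 2 * (2 * i) + 2 := by rw [par_odd]; ring
      unfold Act
      simp only [par_even, e]
      exact ⟨fun h => h.2.2, fun h => ⟨hx, hx', h⟩⟩
    · obtain ⟨i, rfl⟩ : ∃ i, x = 2 * i + 1 := ⟨x / 2, by omega⟩
      have e1 : 2 * (2 * i + 1) + par (2 * i + 1) = 2 * (2 * i + 1) := by rw [par_odd]; ring
      have e2 : 2 * (2 * i + 1 + 1) + par (2 * i + 1 + 1) = 2 * (2 * i + 1 + 1) + 1 := by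
        rw [show (2 : ℤ) * i + 1 + 1 = 2 * (i + 1) by ring, par_even]
      have e3 : (2 : ℤ) * (2 * i + 1 + 1) = 2 * (2 * i + 1) + 2 := by ring
      have hact : ∀ y : X, (a * c * k * (a * c)⁻¹) • y = a • (c * k * c⁻¹) • a⁻¹ • y := by
        intro y; simp only [← mul_smul]; congr 1; group
      unfold Act
      simp only [e1, e2]
      rw [hact, ainvL hv hx]
      constructor
      · rintro ⟨-, -, h⟩
        rw [← hv.aL _ hx'] at h
        have := smul_left_cancel a h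
        show (c * k * c⁻¹) • v (2 * (2 * i + 1) + 1) = v (2 * (2 * i + 1) + 2)
        rw [this, e3]
      · intro h
        refine ⟨hx, hx', ?_⟩
        rw [show (c * k * c⁻¹) • v (2 * (2 * i + 1) + 1) = v (2 * (2 * i + 1) + 2) from h,
          ← e3, hv.aL _ hx']
  by_cases hpar : e % 2 = 0
  · have hpar' : y % 2 = 0 := by omega
    rw [← (tr e he he' k hk).1 hpar, ← (tr y hyJ hyJ' k hk).1 hpar']
    exact hS y hy hyJ hyJ' _ ((mem_HH_even hpar).2 ⟨k, hk, rfl⟩)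
  · have hpar' : ¬ y % 2 = 0 := by omega
    rw [← (tr e he he' k hk).2 hpar, ← (tr y hyJ hyJ' k hk).2 hpar']
    exact hS y hy hyJ hyJ' _ ((mem_HH_odd hpar).2 ⟨k, hk, rfl⟩)

/-- the set of points -/
def pts (v : ℤ → X) (J : Set ℤ) : Set X := v '' J

/-- **The descent.** -/
theorem descent (hv : Lev K v J a c) {n : ℕ} (hexp : ∀ g : G, g ^ (2 ^ n) = 1) {x0 : ℤ}
    (hx0 : x0 ∈ nodes J) (hx0' : x0 + 1 ∈ nodes J) :
    ∃ (w : ℤ → X) (e : ℤ) (t : G), t ∈ K ∧
      Lev K w {j | j + e ∈ nodes J} (c * t * c⁻¹) (a * c) ∧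
      pts w {j | j + e ∈ nodes J} ⊆ pts v J ∧
      (∀ x ∈ pts w {j | j + e ∈ nodes J}, a • x ∉ pts w {j | j + e ∈ nodes J}) ∧
      (∀ k ∈ K, (∀ x ∈ pts w {j | j + e ∈ nodes J}, (c * k * c⁻¹) • x = x) ∨
        (∀ x ∈ pts w {j | j + e ∈ nodes J}, (c * k * c⁻¹) • x = (c * t * c⁻¹) • x)) := by
  obtain ⟨e, he, he', hS, hp1, hp2⟩ := chi_const hv hexp hx0 hx0'
  obtain ⟨t, ht, hta⟩ := hv.act e (mem1 hv he) (by
    have := mem0 he'
    rwa [show 2 * (e + 1) = 2 * e + 2 by ring] at this)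
  set N := nodes J with hN
  set w : ℤ → X := fun j => v (2 * (j + e) + par j) with hw
  have w0 : ∀ i : ℤ, w (2 * i) = v (2 * (2 * i + e) + 1) := by
    intro i; simp only [hw, par_even]
  have w1 : ∀ i : ℤ, w (2 * i + 1) = v (2 * (2 * i + e) + 2) := by
    intro i; simp only [hw, par_odd]; congr 1; ring
  have w1' : ∀ i : ℤ, w (2 * i + 1) = v (2 * (2 * i + 1 + e)) := by
    intro i; simp only [hw, par_odd]; congr 1; ring
  have w2' : ∀ i : ℤ, w (2 * i + 2) = v (2 * (2 * i + 1 + e + 1) + 1) := by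
    intro i
    rw [show (2 : ℤ) * i + 2 = 2 * (i + 1) by ring, w0]; congr 1; ring
  -- all edges of the class
  have hcl : ∀ i : ℤ, 2 * i + e ∈ N → 2 * i + e + 1 ∈ N := fun i hi => hp1 _ hi (by omega)
  have hcl' : ∀ i : ℤ, 2 * i + 1 + e ∈ N → 2 * i + e ∈ N := fun i hi => by
    have := hp2 _ hi (by omega)
    rwa [show 2 * i + 1 + e - 1 = 2 * i + e by ring] at this
  have hchi : ∀ i : ℤ, 2 * i + e ∈ N → ∀ k ∈ K, chi v c k e ↔ chi v c k (2 * i + e) :=
    fun i hi => hS _ (by omega) hi (hcl i hi)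
  have hact : ∀ (k : G) (y : X), (a * c * k * (a * c)⁻¹) • y = a • (c * k * c⁻¹) • a⁻¹ • y := by
    intro k y; simp only [← mul_smul]; congr 1; group
  have hlev : Lev K w {j | j + e ∈ N} (c * t * c⁻¹) (a * c) := by
    refine
      { ord := ?_, inj := ?_, pair := ?_, aL := ?_, aR := ?_, frag := ?_, endR := ?_, endL := ?_,
        act := ?_, ne := ?_ }
    · refine ⟨fun x hx y hy z hz => ?_⟩
      exact (nodes_ord hv).out hx hy ⟨by have := hz.1; omega, by have := hz.2; omega⟩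
    · intro x hx y hy h
      have h1 := hv.inj (mem_par hv (j := x + e) hx x) (mem_par hv (j := y + e) hy y) h
      unfold par at h1
      split at h1 <;> split at h1 <;> omega
    · intro i
      show 2 * i + e ∈ N ↔ 2 * i + 1 + e ∈ N
      refine ⟨fun h => ?_, hcl' i⟩
      have := hcl i h
      rwa [show 2 * i + e + 1 = 2 * i + 1 + e by ring] at this
    · intro i hi
      rw [w0, w1]
      exact (hchi i hi t ht).1 hta
    · intro i hi
      rw [w0, w1]
      exact chi_swap hv hi (hcl i hi) ht ((hchi i hi t ht).1 hta)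
    · intro i k hk hi hi'
      have hm : 2 * i + 1 + e ∈ N := hi
      have hm' : 2 * i + 1 + e + 1 ∈ N := by
        have : 2 * i + 2 + e ∈ N := hi'
        rwa [show 2 * i + 2 + e = 2 * i + 1 + e + 1 by ring] at this
      rw [w1', w2', hact, hact, ainvL hv hm, ainvR hv hm']
      have e3 : 2 * (2 * i + 1 + e + 1) = 2 * (2 * i + 1 + e) + 2 := by ring
      by_cases h : chi v c k (2 * i + 1 + e)
      · right
        rw [show (c * k * c⁻¹) • v (2 * (2 * i + 1 + e) + 1) = v (2 * (2 * i + 1 + e) + 2) from h]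
        have h1 := chi_swap hv hm hm' hk h
        rw [e3, h1, ← e3, hv.aL _ hm', hv.aR _ hm]
        exact ⟨rfl, rfl⟩
      · left
        obtain ⟨h1, h2⟩ := chi_fix hv hm hm' hk h
        rw [h1, e3, h2, ← e3, hv.aL _ hm', hv.aR _ hm]
        exact ⟨rfl, rfl⟩
    · intro i k hk hi hi'
      have hm : 2 * i + 1 + e ∈ N := hi
      have hm2 : ¬ 2 * (2 * i + 1 + e) + 2 ∈ J := fun h => hi' (by
        show 2 * (2 * i + 2 + e) ∈ J
        rwa [show 2 * (2 * i + 2 + e) = 2 * (2 * i + 1 + e) + 2 by ring])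
      rw [w1', hact, ainvL hv hm, hv.endR _ k hk (mem1 hv hm) hm2, hv.aR _ hm]
    · intro i k hk hi hi'
      have hm' : 2 * i + 1 + e + 1 ∈ N := by
        have : 2 * i + 2 + e ∈ N := hi'
        rwa [show 2 * i + 2 + e = 2 * i + 1 + e + 1 by ring] at this
      have hm1 : ¬ 2 * (2 * i + 1 + e) + 1 ∈ J := fun h => hi ((hv.pair _).2 h)
      have e3 : 2 * (2 * i + 1 + e + 1) = 2 * (2 * i + 1 + e) + 2 := by ring
      have hm2 : 2 * (2 * i + 1 + e) + 2 ∈ J := by rw [← e3]; exact hm'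
      rw [w2', hact, ainvR hv hm', e3, hv.endL _ k hk hm1 hm2, ← e3, hv.aL _ hm']
    · intro i hi hi'
      have hm : 2 * i + 1 + e ∈ N := hi
      have hm' : 2 * i + 1 + e + 1 ∈ N := by
        have : 2 * i + 2 + e ∈ N := hi'
        rwa [show 2 * i + 2 + e = 2 * i + 1 + e + 1 by ring] at this
      have e3 : 2 * (2 * i + 1 + e + 1) = 2 * (2 * i + 1 + e) + 2 := by ring
      have hm2 : 2 * (2 * i + 1 + e) + 2 ∈ J := by rw [← e3]; exact hm'
      obtain ⟨k, hk, h⟩ := hv.act _ (mem1 hv hm) hm2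
      refine ⟨k, hk, ?_⟩
      rw [w1', w2', hact, ainvL hv hm, h, ← e3, hv.aL _ hm']
    · exact ⟨0, by show 0 + e ∈ N; rw [zero_add]; exact he⟩
  refine ⟨w, e, t, ht, hlev, ?_, ?_, ?_⟩
  · rintro _ ⟨j, hj, rfl⟩
    exact ⟨2 * (j + e) + par j, mem_par hv hj j, rfl⟩
  · rintro _ ⟨j, hj, rfl⟩ ⟨j', hj', h⟩
    have hj1 : j + e ∈ N := hj
    have hj1' : j' + e ∈ N := hj'
    have key : ∀ s : ℤ, s ∈ J → w j' = v s → s = 2 * (j' + e) + par j' := fun s hs hvs =>
      hv.inj hs (mem_par hv hj1' j') hvs.symm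
    rcases Int.even_or_odd' j with ⟨i, rfl | rfl⟩
    · rw [w0, hv.aR _ hj1] at h
      have h1 := key _ (mem0 hj1) h
      unfold par at h1
      split at h1 <;> omega
    · rw [w1', hv.aL _ hj1] at h
      have h1 := key _ (mem1 hv hj1) h
      unfold par at h1
      split at h1 <;> omega
  · intro k hk
    by_cases hke : chi v c k e
    · right
      rintro _ ⟨j, hj, rfl⟩
      rcases Int.even_or_odd' j with ⟨i, rfl | rfl⟩
      · have hj1 : 2 * i + e ∈ N := hj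
        have h1 := (hchi i hj1 k hk).1 hke
        have h2 := (hchi i hj1 t ht).1 hta
        rw [w0]
        exact h1.trans h2.symm
      · have hj1 : 2 * i + e ∈ N := hcl' i hj
        have h1 := chi_swap hv hj1 (hcl i hj1) hk ((hchi i hj1 k hk).1 hke)
        have h2 := chi_swap hv hj1 (hcl i hj1) ht ((hchi i hj1 t ht).1 hta)
        rw [w1]
        exact h1.trans h2.symm
    · left
      rintro _ ⟨j, hj, rfl⟩
      rcases Int.even_or_odd' j with ⟨i, rfl | rfl⟩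
      · have hj1 : 2 * i + e ∈ N := hj
        have h1 := chi_fix hv hj1 (hcl i hj1) hk (fun h => hke ((hchi i hj1 k hk).2 h))
        rw [w0]
        exact h1.1
      · have hj1 : 2 * i + e ∈ N := hcl' i hj
        have h1 := chi_fix hv hj1 (hcl i hj1) hk (fun h => hke ((hchi i hj1 k hk).2 h))
        rw [w1]
        exact h1.2

end Lev

end Pool.Agent.FRG
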