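/-
FRG/Build: from a long level to a tower; the line of the fragments of two involutions.
-/
import Pool.Agent.Lib.FRG.Level

namespace Pool.Agent.FRG

variable {G X : Type*} [Group G] [MulAction G X]

namespace Lev

variable {K : Subgroup G} {v : ℤ → X} {J : Set ℤ} {a c : G}

theorem aW (hv : Lev K v J a c) : ∀ x ∈ pts v J, a • x ∈ pts v J := by
  rintro _ ⟨j, hj, rfl⟩
  rcases Int.even_or_odd' j with ⟨i, rfl | rfl⟩
  · exact ⟨2 * i + 1, (hv.pair i).1 hj, (hv.aL i hj).symm⟩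
  · exact ⟨2 * i, (hv.pair i).2 hj, (hv.aR i ((hv.pair i).2 hj)).symm⟩

theorem aa (hv : Lev K v J a c) : ∀ x ∈ pts v J, a • a • x = x := by
  rintro _ ⟨j, hj, rfl⟩
  rcases Int.even_or_odd' j with ⟨i, rfl | rfl⟩
  · rw [hv.aL i hj, hv.aR i hj]
  · rw [hv.aR i ((hv.pair i).2 hj), hv.aL i ((hv.pair i).2 hj)]

theorem ane (hv : Lev K v J a c) : ∀ x ∈ pts v J, a • x ≠ x := by
  rintro _ ⟨j, hj, rfl⟩ h
  rcases Int.even_or_odd' j with ⟨i, rfl | rfl⟩
  · rw [hv.aL i hj] at h
    have := hv.inj ((hv.pair i).1 hj) hj h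
    omega
  · rw [hv.aR i ((hv.pair i).2 hj)] at h
    have := hv.inj ((hv.pair i).2 hj) hj h
    omega

theorem rW (hv : Lev K v J a c) : ∀ k ∈ K, ∀ x ∈ pts v J, (c * k * c⁻¹) • x ∈ pts v J := by
  rintro k hk _ ⟨j, hj, rfl⟩
  rcases Int.even_or_odd' j with ⟨i, rfl | rfl⟩
  · obtain ⟨m, hm⟩ : ∃ m : ℤ, 2 * i = 2 * m + 2 := ⟨i - 1, by ring⟩
    rw [hm] at hj ⊢
    by_cases h : 2 * m + 1 ∈ J
    · rcases hv.frag m k hk h hj with h' | h'
      · rw [h'.2]; exact ⟨_, hj, rfl⟩
      · rw [h'.2]; exact ⟨_, h, rfl⟩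
    · rw [hv.endL m k hk h hj]; exact ⟨_, hj, rfl⟩
  · by_cases h : 2 * i + 2 ∈ J
    · rcases hv.frag i k hk hj h with h' | h'
      · rw [h'.1]; exact ⟨_, hj, rfl⟩
      · rw [h'.1]; exact ⟨_, h, rfl⟩
    · rw [hv.endR i k hk hj h]; exact ⟨_, hj, rfl⟩

theorem encard_nodes (hv : Lev K v J a c) {n : ℕ} (h : (2 : ℕ∞) ^ (n + 1) ≤ J.encard) :
    (2 : ℕ∞) ^ n ≤ (nodes J).encard := by
  by_contra hcon
  rw [not_le] at hcon
  obtain ⟨m, hm⟩ := ENat.ne_top_iff_exists.1 (ne_top_of_lt hcon)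
  have hsub : J ⊆ (fun j => 2 * j) '' nodes J ∪ (fun j => 2 * j + 1) '' nodes J := by
    intro j hj
    rcases Int.even_or_odd' j with ⟨i, rfl | rfl⟩
    · exact Or.inl ⟨i, hj, rfl⟩
    · exact Or.inr ⟨i, (hv.pair i).2 hj, rfl⟩
  have h1 : J.encard ≤ (nodes J).encard + (nodes J).encard :=
    (Set.encard_le_encard hsub).trans ((Set.encard_union_le _ _).trans
      (add_le_add (Set.encard_image_le _ _) (Set.encard_image_le _ _)))
  rw [← hm] at h1 hcon
  have h2 := h.trans h1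
  have h3 : m < 2 ^ n := by exact_mod_cast hcon
  have h4 : 2 ^ (n + 1) ≤ m + m := by exact_mod_cast h2
  rw [pow_succ] at h4
  omega

theorem encard_shift (N : Set ℤ) (e : ℤ) : {j | j + e ∈ N}.encard = N.encard := by
  have h1 : {j | j + e ∈ N} = (fun j => j - e) '' N := by
    ext j
    constructor
    · intro h
      exact ⟨j + e, h, by ring⟩
    · rintro ⟨i, hi, rfl⟩
      show i - e + e ∈ N
      rw [sub_add_cancel]; exact hi
  rw [h1]
  exact (sub_left_injective).encard_image N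

/-- two neighbouring elements -/
theorem exists_succ {N : Set ℤ} (hN : N.OrdConnected) (h : (2 : ℕ∞) ≤ N.encard) :
    ∃ x, x ∈ N ∧ x + 1 ∈ N := by
  have h1 : (1 : ℕ∞) < N.encard := lt_of_lt_of_le (by norm_num) h
  obtain ⟨x, y, hx, hy, hxy⟩ := Set.one_lt_encard_iff.1 h1
  rcases lt_or_gt_of_ne hxy with h2 | h2
  · exact ⟨x, hx, hN.out hx hy ⟨by omega, by omega⟩⟩
  · exact ⟨y, hy, hN.out hy hx ⟨by omega, by omega⟩⟩

theorem exists_tower {e2 : ℕ} (hexp : ∀ g : G, g ^ (2 ^ e2) = 1) (n : ℕ) :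
    ∀ (v : ℤ → X) (J : Set ℤ) (a c : G), Lev K v J a c → (2 : ℕ∞) ^ (n + 1) ≤ J.encard →
    ∃ (W : ℕ → Set X) (A C T : ℕ → G), Tower K n W A C T ∧ W 0 = pts v J ∧ A 0 = a ∧ C 0 = c := by
  induction n with
  | zero =>
    intro v J a c hv _
    refine ⟨fun _ => pts v J, fun _ => a, fun _ => c, fun _ => 1, ?_, rfl, rfl, rfl⟩
    exact
      { sub := fun i hi => absurd hi (Nat.not_lt_zero i)
        tK := fun i hi => absurd hi (Nat.not_lt_zero i)
        ha := fun i hi => absurd hi (Nat.not_lt_zero i)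
        hc := fun i hi => absurd hi (Nat.not_lt_zero i)
        aW := fun i _ => aW hv
        aa := fun i _ => aa hv
        ane := fun i _ => ane hv
        rW := fun i _ => rW hv
        out := fun i hi => absurd hi (Nat.not_lt_zero i)
        alt := fun i hi => absurd hi (Nat.not_lt_zero i)
        ne := fun i _ => hv.ne.image v }
  | succ n ih =>
    intro v J a c hv hJ
    have h1 := encard_nodes hv hJ
    have h2 : (2 : ℕ∞) ≤ (nodes J).encard := by
      refine le_trans ?_ h1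
      calc (2 : ℕ∞) = 2 ^ 1 := (pow_one _).symm
        _ ≤ 2 ^ (n + 1) := by exact_mod_cast Nat.pow_le_pow_right (by norm_num) (by omega)
    obtain ⟨x0, hx0, hx0'⟩ := exists_succ (nodes_ord hv) h2
    obtain ⟨w, e, t, ht, hw, hsub, hout, halt⟩ := descent hv hexp hx0 hx0'
    obtain ⟨W, A, C, T, hT, hW0, hA0, hC0⟩ := ih w _ _ _ hw (by rw [encard_shift]; exact h1)
    refine ⟨fun i => Nat.casesOn i (pts v J) W, fun i => Nat.casesOn i a A,
      fun i => Nat.casesOn i c C, fun i => Nat.casesOn i t T, ?_, rfl, rfl, rfl⟩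
    refine
      { sub := ?_, tK := ?_, ha := ?_, hc := ?_, aW := ?_, aa := ?_, ane := ?_, rW := ?_,
        out := ?_, alt := ?_, ne := ?_ }
    · rintro (_ | i) hi
      · show W 0 ⊆ pts v J
        rw [hW0]; exact hsub
      · exact hT.sub i (by omega)
    · rintro (_ | i) hi
      · exact ht
      · exact hT.tK i (by omega)
    · rintro (_ | i) hi
      · exact hA0
      · exact hT.ha i (by omega)
    · rintro (_ | i) hi
      · exact hC0
      · exact hT.hc i (by omega)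
    · rintro (_ | i) hi
      · exact aW hv
      · exact hT.aW i (by omega)
    · rintro (_ | i) hi
      · exact aa hv
      · exact hT.aa i (by omega)
    · rintro (_ | i) hi
      · exact ane hv
      · exact hT.ane i (by omega)
    · rintro (_ | i) hi
      · exact rW hv
      · exact hT.rW i (by omega)
    · rintro (_ | i) hi
      · show ∀ w ∈ W 0, a • w ∉ W 0
        rw [hW0]; exact hout
      · exact hT.out i (by omega)
    · rintro (_ | i) hi
      · show ∀ k ∈ K, (∀ w ∈ W 0, (c * k * c⁻¹) • w = w) ∨ (∀ w ∈ W 0, (c * k * c⁻¹) • w = A 0 • w)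
        rw [hW0, hA0]; exact halt
      · exact hT.alt i (by omega)
    · rintro (_ | i) hi
      · exact hv.ne.image v
      · exact hT.ne i (by omega)

/-- no long level in a group of exponent `2 ^ k` -/
theorem false_of_long (hv : Lev K v J a c) {k : ℕ} (hexp : ∀ g : G, g ^ (2 ^ k) = 1)
    (hJ : (2 : ℕ∞) ^ (2 * (k + 1) ^ 2 + 1) ≤ J.encard) : False := by
  obtain ⟨W, A, C, T, hT, -, -, -⟩ := exists_tower (K := K) hexp (2 * (k + 1) ^ 2) v J a c hv hJ
  exact hT.false_of_exp hexp (by ring_nf; exact le_rfl)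

end Lev

/-- no long line in a group of exponent `2 ^ k` -/
theorem Line.encard_lt {v : ℤ → X} {J : Set ℤ} {H : ℤ → Subgroup G} (Ln : Line v J H) {k : ℕ}
    (hexp : ∀ g : G, g ^ (2 ^ k) = 1) : J.encard < (2 : ℕ∞) ^ (2 * (k + 1) ^ 2 + 1) := by
  by_contra hcon
  rw [not_lt] at hcon
  have h2 : (2 : ℕ∞) ≤ J.encard := by
    refine le_trans ?_ hcon
    calc (2 : ℕ∞) = 2 ^ 1 := (pow_one _).symm
      _ ≤ 2 ^ (2 * (k + 1) ^ 2 + 1) := by exact_mod_cast Nat.pow_le_pow_right (by norm_num) (by omega)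
  obtain ⟨x0, hx0, hx0'⟩ := Lev.exists_succ Ln.ord h2
  obtain ⟨e, he, he', hS, hp1, hp2⟩ := Line.pm Ln hexp hx0 hx0'
  obtain ⟨a, ha, hae⟩ := Ln.act e he he'
  have hact : ∀ i : ℤ, 2 * i + e ∈ J → Act v J a (2 * i + e) := fun i hi =>
    (hS (2 * i + e) (by omega) hi (hp1 _ hi (by omega)) a ha).1 ⟨he, he', hae⟩
  have haH : ∀ i : ℤ, a ∈ H (2 * i + e) := fun i => by
    rw [Line.per_dvd Ln (x := e) (y := 2 * i + e) (by omega)]; exact ha
  have hKH : ∀ i : ℤ, ∀ k ∈ H (e + 1), k ∈ H (2 * i + 1 + e) := fun i k hk => by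
    rw [Line.per_dvd Ln (x := e + 1) (y := 2 * i + 1 + e) (by omega)]; exact hk
  have hlev : Lev (H (e + 1)) (fun j => v (j + e)) {j | j + e ∈ J} a 1 := by
    refine
      { ord := ?_, inj := ?_, pair := ?_, aL := ?_, aR := ?_, frag := ?_, endR := ?_, endL := ?_,
        act := ?_, ne := ?_ }
    · refine ⟨fun x hx y hy z hz => ?_⟩
      exact Ln.ord.out hx hy ⟨by have := hz.1; omega, by have := hz.2; omega⟩
    · intro x hx y hy h
      have := Ln.inj hx hy h
      omega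
    · intro i
      show 2 * i + e ∈ J ↔ 2 * i + 1 + e ∈ J
      refine ⟨fun h => ?_, fun h => ?_⟩
      · have := hp1 _ h (by omega)
        rwa [show 2 * i + e + 1 = 2 * i + 1 + e by ring] at this
      · have := hp2 _ h (by omega)
        rwa [show 2 * i + 1 + e - 1 = 2 * i + e by ring] at this
    · intro i hi
      have := (Line.act_swap Ln (haH i) (hact i hi)).1
      rwa [show 2 * i + e + 1 = 2 * i + 1 + e by ring] at this
    · intro i hi
      have := (Line.act_swap Ln (haH i) (hact i hi)).2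
      rwa [show 2 * i + e + 1 = 2 * i + 1 + e by ring] at this
    · intro i k hk hi hi'
      have e1 : 2 * i + 2 + e = 2 * i + 1 + e + 1 := by ring
      have h2 : 2 * i + 1 + e + 1 ∈ J := by rw [← e1]; exact hi'
      have := Ln.frag (2 * i + 1 + e) k (hKH i k hk) hi h2
      rw [one_mul, inv_one, mul_one]
      show (k • v (2 * i + 1 + e) = v (2 * i + 1 + e) ∧ k • v (2 * i + 2 + e) = v (2 * i + 2 + e)) ∨
        (k • v (2 * i + 1 + e) = v (2 * i + 2 + e) ∧ k • v (2 * i + 2 + e) = v (2 * i + 1 + e))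
      rw [e1]; exact this
    · intro i k hk hi hi'
      have e1 : 2 * i + 2 + e = 2 * i + 1 + e + 1 := by ring
      rw [one_mul, inv_one, mul_one]
      exact Ln.endR (2 * i + 1 + e) k (hKH i k hk) hi (fun h => hi' (by
        show 2 * i + 2 + e ∈ J
        rw [e1]; exact h))
    · intro i k hk hi hi'
      have e1 : 2 * i + 2 + e = 2 * i + 1 + e + 1 := by ring
      rw [one_mul, inv_one, mul_one]
      show k • v (2 * i + 2 + e) = v (2 * i + 2 + e)
      rw [e1]
      exact Ln.endL (2 * i + 1 + e) k (hKH i k hk) hi (by rw [← e1]; exact hi')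
    · intro i hi hi'
      have e1 : 2 * i + 2 + e = 2 * i + 1 + e + 1 := by ring
      have h2 : 2 * i + 1 + e + 1 ∈ J := by rw [← e1]; exact hi'
      obtain ⟨k, hk, h⟩ := Ln.act (2 * i + 1 + e) hi h2
      refine ⟨k, ?_, ?_⟩
      · rw [← Line.per_dvd Ln (x := e + 1) (y := 2 * i + 1 + e) (by omega)]; exact hk
      · rw [one_mul, inv_one, mul_one]
        show k • v (2 * i + 1 + e) = v (2 * i + 2 + e)
        rw [e1]; exact h
    · exact ⟨0, by show 0 + e ∈ J; rw [zero_add]; exact he⟩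
  exact Lev.false_of_long hlev hexp (by rw [Lev.encard_shift]; exact hcon)

end Pool.Agent.FRG
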