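/-
FRG/Init: the line of the fragments of two involutions, bounded orbits, finiteness.
-/
import Pool.Agent.Lib.FRG.Build

namespace Pool.Agent.FRG

variable {G X : Type*} [Group G] [MulAction G X]

/-- the elements which act as fragments of the involution `s` -/
def fragG (G : Type*) {X : Type*} [Group G] [MulAction G X] (s : X → X)
    (hs : Function.Involutive s) : Subgroup G where
  carrier := {g | ∀ x, g • x = x ∨ g • x = s x}
  one_mem' := fun x => Or.inl (one_smul _ x)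
  mul_mem' := by
    intro a b ha hb x
    rw [mul_smul]
    rcases hb x with h | h
    · rw [h]; exact ha x
    · rw [h]
      rcases ha (s x) with h' | h'
      · exact Or.inr h'
      · rw [h', hs x]; exact Or.inl rfl
  inv_mem' := by
    intro a ha x
    show a⁻¹ • x = x ∨ a⁻¹ • x = s x
    rw [inv_smul_eq_iff, inv_smul_eq_iff]
    rcases ha x with h | h
    · exact Or.inl h.symm
    · rcases ha (s x) with h' | h'
      · left
        rw [← h] at h'
        have h2 := smul_left_cancel a h'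
        exact h2.symm
      · right
        rw [h', hs x]

theorem mem_fragG {s : X → X} {hs : Function.Involutive s} {g : G} :
    g ∈ fragG G s hs ↔ ∀ x, g • x = x ∨ g • x = s x := Iff.rfl

section

variable (s₀ s₁ : X → X) (h₀ : Function.Involutive s₀) (h₁ : Function.Involutive s₁)

/-- the rotation -/
def tau : Equiv.Perm X := h₁.toPerm * h₀.toPerm

theorem tau_apply (x : X) : tau s₀ s₁ h₀ h₁ x = s₁ (s₀ x) := rfl

/-- the line through `x` -/
def vv (x : X) (j : ℤ) : X :=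
  if j % 2 = 0 then (tau s₀ s₁ h₀ h₁ ^ (j / 2)) x else s₀ ((tau s₀ s₁ h₀ h₁ ^ (j / 2)) x)

/-- the involution of the edge `j, j + 1` -/
def sg (j : ℤ) : X → X := if j % 2 = 0 then s₀ else s₁

theorem vv_even (x : X) (i : ℤ) : vv s₀ s₁ h₀ h₁ x (2 * i) = (tau s₀ s₁ h₀ h₁ ^ i) x := by
  unfold vv
  rw [if_pos (by omega), show 2 * i / 2 = i by omega]

theorem vv_odd (x : X) (i : ℤ) : vv s₀ s₁ h₀ h₁ x (2 * i + 1) = s₀ ((tau s₀ s₁ h₀ h₁ ^ i) x) := by
  unfold vv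
  rw [if_neg (by omega), show (2 * i + 1) / 2 = i by omega]

theorem sg_vv (x : X) (j : ℤ) : sg s₀ s₁ j (vv s₀ s₁ h₀ h₁ x j) = vv s₀ s₁ h₀ h₁ x (j + 1) := by
  rcases Int.even_or_odd' j with ⟨i, rfl | rfl⟩
  · unfold sg
    rw [if_pos (by omega), vv_even, vv_odd]
  · unfold sg
    rw [if_neg (by omega), vv_odd, show (2 : ℤ) * i + 1 + 1 = 2 * (i + 1) by ring, vv_even,
      ← tau_apply s₀ s₁ h₀ h₁, add_comm i 1, zpow_add, zpow_one]
    rfl

include h₀ h₁ in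
theorem sg_inv (j : ℤ) : Function.Involutive (sg s₀ s₁ j) := by
  unfold sg
  split
  · exact h₀
  · exact h₁

theorem sg_vv' (x : X) (j : ℤ) : sg s₀ s₁ j (vv s₀ s₁ h₀ h₁ x (j + 1)) = vv s₀ s₁ h₀ h₁ x j := by
  rw [← sg_vv, sg_inv s₀ s₁ h₀ h₁ j]

/-- the letters of the edge `j, j + 1` -/
def HF (G : Type*) [Group G] [MulAction G X] (j : ℤ) : Subgroup G :=
  if j % 2 = 0 then fragG G s₀ h₀ else fragG G s₁ h₁

theorem mem_HF {j : ℤ} {g : G} : g ∈ HF s₀ s₁ h₀ h₁ G j ↔ ∀ x, g • x = x ∨ g • x = sg s₀ s₁ j x := by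
  unfold HF sg
  split <;> exact Iff.rfl

/-- the edge `j, j + 1` is active -/
def EE (G : Type*) [Group G] [MulAction G X] (x : X) (j : ℤ) : Prop :=
  (∃ g ∈ HF s₀ s₁ h₀ h₁ G j, g • vv s₀ s₁ h₀ h₁ x j = vv s₀ s₁ h₀ h₁ x (j + 1)) ∧
    vv s₀ s₁ h₀ h₁ x j ≠ vv s₀ s₁ h₀ h₁ x (j + 1)

/-- the component of `0` -/
def JJ (G : Type*) [Group G] [MulAction G X] (x : X) : Set ℤ :=
  {n | (∀ j, 0 ≤ j → j < n → EE s₀ s₁ h₀ h₁ G x j) ∧ (∀ j, n ≤ j → j < 0 → EE s₀ s₁ h₀ h₁ G x j)}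

theorem EE_of_mem {x : X} {p q t : ℤ} (hp : p ∈ JJ s₀ s₁ h₀ h₁ G x) (hq : q ∈ JJ s₀ s₁ h₀ h₁ G x)
    (h1 : p ≤ t) (h2 : t < q) : EE s₀ s₁ h₀ h₁ G x t := by
  rcases le_or_gt 0 t with h | h
  · exact hq.1 t h h2
  · exact hp.2 t h1 h

/-- no orbit of `s₀, s₁` is a cycle -/
def NoCycle : Prop := ∀ x : X, ∀ n : ℕ, 0 < n → (s₁ ∘ s₀)^[n] x = x →
  ∃ m : ℕ, s₀ ((s₁ ∘ s₀)^[m] x) = (s₁ ∘ s₀)^[m] x ∨ s₁ ((s₁ ∘ s₀)^[m] x) = (s₁ ∘ s₀)^[m] x

theorem tau_pow (n : ℕ) (x : X) : (tau s₀ s₁ h₀ h₁ ^ n) x = (s₁ ∘ s₀)^[n] x := by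
  rw [← Equiv.Perm.iterate_eq_pow]; rfl

theorem vv_inj (hcyc : NoCycle s₀ s₁) (x : X) :
    Set.InjOn (vv s₀ s₁ h₀ h₁ x) (JJ s₀ s₁ h₀ h₁ G x) := by
  have main : ∀ p ∈ JJ s₀ s₁ h₀ h₁ G x, ∀ q ∈ JJ s₀ s₁ h₀ h₁ G x, p < q →
      vv s₀ s₁ h₀ h₁ x p ≠ vv s₀ s₁ h₀ h₁ x q := by
    intro p hp q hq hpq heq
    rcases Int.even_or_odd' (q - p) with ⟨n, hn | hn⟩
    · -- the same parity
      have hn0 : 0 < n := by omega
      have hper1 : (tau s₀ s₁ h₀ h₁ ^ n) x = x := by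
        have h1 : ∃ i : ℤ, (tau s₀ s₁ h₀ h₁ ^ (i + n)) x = (tau s₀ s₁ h₀ h₁ ^ i) x := by
          rcases Int.even_or_odd' p with ⟨i, hi | hi⟩
          · refine ⟨i, ?_⟩
            rw [hi, show q = 2 * (i + n) by omega, vv_even, vv_even] at heq
            exact heq.symm
          · refine ⟨i, ?_⟩
            rw [hi, show q = 2 * (i + n) + 1 by omega, vv_odd, vv_odd] at heq
            exact (h₀.injective heq).symm
        obtain ⟨i, hi⟩ := h1
        rw [zpow_add, Equiv.Perm.mul_apply] at hi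
        exact (tau s₀ s₁ h₀ h₁ ^ i).injective hi
      have hper : ∀ i c : ℤ, (tau s₀ s₁ h₀ h₁ ^ (i + n * c)) x = (tau s₀ s₁ h₀ h₁ ^ i) x := by
        intro i c
        rw [zpow_add, Equiv.Perm.mul_apply, zpow_mul,
          Equiv.Perm.zpow_apply_eq_self_of_apply_eq_self hper1]
      have hvper : ∀ t c : ℤ, vv s₀ s₁ h₀ h₁ x (t + 2 * n * c) = vv s₀ s₁ h₀ h₁ x t := by
        intro t c
        rcases Int.even_or_odd' t with ⟨i, rfl | rfl⟩
        · rw [show 2 * i + 2 * n * c = 2 * (i + n * c) by ring, vv_even, vv_even, hper]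
        · rw [show 2 * i + 1 + 2 * n * c = 2 * (i + n * c) + 1 by ring, vv_odd, vv_odd, hper]
      obtain ⟨N, rfl⟩ : ∃ N : ℕ, n = N := ⟨n.toNat, by omega⟩
      obtain ⟨m, hm⟩ := hcyc x N (by exact_mod_cast hn0) (by
        rw [← tau_pow s₀ s₁ h₀ h₁]; exact_mod_cast hper1)
      rw [← tau_pow s₀ s₁ h₀ h₁, ← zpow_natCast, ← vv_even] at hm
      obtain ⟨f, hf⟩ : ∃ f : ℤ, vv s₀ s₁ h₀ h₁ x f = vv s₀ s₁ h₀ h₁ x (f + 1) := by
        rcases hm with h | h
        · refine ⟨2 * m, ?_⟩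
          rw [← sg_vv]
          unfold sg
          rw [if_pos (by omega)]
          exact h.symm
        · refine ⟨2 * m - 1, ?_⟩
          rw [← sg_vv' s₀ s₁ h₀ h₁ x (2 * m - 1)]
          unfold sg
          rw [if_neg (by omega), show 2 * (m : ℤ) - 1 + 1 = 2 * m by ring]
          exact h
      set f' : ℤ := p + (f - p) % (2 * N) with hf'
      have hf2 : ∃ c : ℤ, f' = f + 2 * N * c := by
        refine ⟨-((f - p) / (2 * N)), ?_⟩
        have := Int.emod_add_mul_ediv (f - p) (2 * N)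
        rw [hf']
        linarith
      obtain ⟨c, hc⟩ := hf2
      have hlo := Int.emod_nonneg (f - p) (show (2 * (N : ℤ)) ≠ 0 by omega)
      have hhi := Int.emod_lt_of_pos (f - p) (show 0 < (2 * (N : ℤ)) by omega)
      have hE := (EE_of_mem s₀ s₁ h₀ h₁ hp hq (t := f') (by omega) (by omega)).2
      apply hE
      rw [hc, hvper, show f + 2 * (N : ℤ) * c + 1 = f + 1 + 2 * N * c by ring, hvper]
      exact hf
    · -- different parity
      have hn0 : 0 ≤ n := by omega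
      have hfold : ∀ i : ℕ, (i : ℤ) ≤ n →
          vv s₀ s₁ h₀ h₁ x (p + i) = vv s₀ s₁ h₀ h₁ x (q - i) := by
        intro i
        induction i with
        | zero => intro _; simpa using heq
        | succ i ih =>
          intro hi
          have h1 := ih (by push_cast at hi; omega)
          have e1 : p + ((i + 1 : ℕ) : ℤ) = p + i + 1 := by push_cast; ring
          have e2 : q - ((i + 1 : ℕ) : ℤ) = q - i - 1 := by push_cast; ring
          rw [e1, e2, ← sg_vv, ← sg_vv' s₀ s₁ h₀ h₁ x (q - i - 1)]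
          have e3 : q - (i : ℤ) - 1 + 1 = q - i := by ring
          rw [e3, h1]
          have h4 : (p + (i : ℤ)) % 2 = (q - i - 1) % 2 := by omega
          have h5 : sg s₀ s₁ (p + i) = sg s₀ s₁ (q - i - 1) := by
            unfold sg; rw [h4]
          rw [h5]
      have h1 := hfold n.toNat (by omega)
      have e1 : p + (n.toNat : ℤ) = p + n := by omega
      have e2 : q - (n.toNat : ℤ) = p + n + 1 := by omega
      rw [e1, e2] at h1
      exact (EE_of_mem s₀ s₁ h₀ h₁ hp hq (t := p + n) (by omega) (by omega)).2 h1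
  intro p hp q hq h
  rcases lt_trichotomy p q with h1 | h1 | h1
  · exact absurd h (main p hp q hq h1)
  · exact h1
  · exact absurd h.symm (main q hq p hp h1)

theorem lineF (hcyc : NoCycle s₀ s₁) (x : X) :
    Line (vv s₀ s₁ h₀ h₁ x) (JJ s₀ s₁ h₀ h₁ G x) (HF s₀ s₁ h₀ h₁ G) where
  ord := by
    refine ⟨fun p hp q hq z hz => ⟨fun j h1 h2 => hq.1 j h1 (by have := hz.2; omega),
      fun j h1 h2 => hp.2 j (by have := hz.1; omega) h2⟩⟩
  inj := vv_inj s₀ s₁ h₀ h₁ hcyc x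
  per := by
    intro j
    unfold HF
    by_cases h : j % 2 = 0
    · rw [if_pos h, if_pos (by omega)]
    · rw [if_neg h, if_neg (by omega)]
  frag := by
    intro j g hg hj hj'
    have hne : vv s₀ s₁ h₀ h₁ x j ≠ vv s₀ s₁ h₀ h₁ x (j + 1) :=
      (EE_of_mem s₀ s₁ h₀ h₁ hj hj' (t := j) le_rfl (by omega)).2
    have h1 := (mem_HF s₀ s₁ h₀ h₁).1 hg (vv s₀ s₁ h₀ h₁ x j)
    have h2 := (mem_HF s₀ s₁ h₀ h₁).1 hg (vv s₀ s₁ h₀ h₁ x (j + 1))
    rw [sg_vv] at h1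
    rw [sg_vv'] at h2
    rcases h1 with h1 | h1
    · rcases h2 with h2 | h2
      · exact Or.inl ⟨h1, h2⟩
      · exact absurd (smul_left_cancel g (h1.trans h2.symm)) hne
    · rcases h2 with h2 | h2
      · exact absurd (smul_left_cancel g (h1.trans h2.symm)) hne
      · exact Or.inr ⟨h1, h2⟩
  endR := by
    intro j g hg hj hj'
    have hE : ¬ EE s₀ s₁ h₀ h₁ G x j := by
      intro hE
      apply hj'
      refine ⟨fun t h1 h2 => ?_, fun t h1 h2 => hj.2 t (by omega) h2⟩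
      rcases eq_or_lt_of_le (show t ≤ j by omega) with h | h
      · rw [h]; exact hE
      · exact hj.1 t h1 h
    have h1 := (mem_HF s₀ s₁ h₀ h₁).1 hg (vv s₀ s₁ h₀ h₁ x j)
    rw [sg_vv] at h1
    rcases h1 with h1 | h1
    · exact h1
    · by_cases hne : vv s₀ s₁ h₀ h₁ x j = vv s₀ s₁ h₀ h₁ x (j + 1)
      · rw [h1]; exact hne.symm
      · exact absurd ⟨⟨g, hg, h1⟩, hne⟩ hE
  endL := by
    intro j g hg hj hj'
    have hE : ¬ EE s₀ s₁ h₀ h₁ G x j := by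
      intro hE
      apply hj
      refine ⟨fun t h1 h2 => hj'.1 t h1 (by omega), fun t h1 h2 => ?_⟩
      rcases eq_or_lt_of_le h1 with h | h
      · rw [← h]; exact hE
      · exact hj'.2 t (by omega) h2
    have h1 := (mem_HF s₀ s₁ h₀ h₁).1 hg (vv s₀ s₁ h₀ h₁ x (j + 1))
    rw [sg_vv'] at h1
    rcases h1 with h1 | h1
    · exact h1
    · by_cases hne : vv s₀ s₁ h₀ h₁ x j = vv s₀ s₁ h₀ h₁ x (j + 1)
      · rw [h1]; exact hne
      · refine absurd ⟨⟨g⁻¹, Subgroup.inv_mem _ hg, ?_⟩, hne⟩ hE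
        rw [inv_smul_eq_iff, h1]
  act := by
    intro j hj hj'
    exact (EE_of_mem s₀ s₁ h₀ h₁ hj hj' (t := j) le_rfl (by omega)).1

/-- the orbit is covered by the line -/
theorem orbit_sub (hcyc : NoCycle s₀ s₁) (x : X) {S : Set G} (hS : Subgroup.closure S = ⊤)
    (hfrag : ∀ g ∈ S, (∀ x, g • x = x ∨ g • x = s₀ x) ∨ (∀ x, g • x = x ∨ g • x = s₁ x)) :
    MulAction.orbit G x ⊆ vv s₀ s₁ h₀ h₁ x '' JJ s₀ s₁ h₀ h₁ G x := by
  have Ln : Line (vv s₀ s₁ h₀ h₁ x) (JJ s₀ s₁ h₀ h₁ G x) (HF s₀ s₁ h₀ h₁ G) :=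
    lineF (G := G) s₀ s₁ h₀ h₁ hcyc x
  have key : ∀ e : ℤ, ∀ g ∈ HF s₀ s₁ h₀ h₁ G e,
      ∀ y ∈ vv s₀ s₁ h₀ h₁ x '' JJ s₀ s₁ h₀ h₁ G x, g • y ∈ vv s₀ s₁ h₀ h₁ x '' JJ s₀ s₁ h₀ h₁ G x := by
    rintro e g hg _ ⟨j, hj, rfl⟩
    by_cases h : (2 : ℤ) ∣ j - e
    · have hgj : g ∈ HF s₀ s₁ h₀ h₁ G j := by rw [Line.per_dvd Ln h]; exact hg
      by_cases hj' : j + 1 ∈ JJ s₀ s₁ h₀ h₁ G x
      · rcases Ln.frag j g hgj hj hj' with h1 | h1
        · rw [h1.1]; exact ⟨j, hj, rfl⟩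
        · rw [h1.1]; exact ⟨j + 1, hj', rfl⟩
      · rw [Ln.endR j g hgj hj hj']; exact ⟨j, hj, rfl⟩
    · have hgj : g ∈ HF s₀ s₁ h₀ h₁ G (j - 1) := by
        rw [Line.per_dvd Ln (x := e) (y := j - 1) (by omega)]; exact hg
      have e1 : j - 1 + 1 = j := by ring
      by_cases hj' : j - 1 ∈ JJ s₀ s₁ h₀ h₁ G x
      · have h2 := Ln.frag (j - 1) g hgj hj' (by rw [e1]; exact hj)
        rw [e1] at h2
        rcases h2 with h1 | h1
        · rw [h1.2]; exact ⟨j, hj, rfl⟩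
        · rw [h1.2]; exact ⟨j - 1, hj', rfl⟩
      · have h2 := Ln.endL (j - 1) g hgj hj' (by rw [e1]; exact hj)
        rw [e1] at h2
        rw [h2]; exact ⟨j, hj, rfl⟩
  have hall : Subgroup.closure S ≤ pres G (vv s₀ s₁ h₀ h₁ x '' JJ s₀ s₁ h₀ h₁ G x) := by
    refine (Subgroup.closure_le _).2 fun g hg => ?_
    have h0 : ∃ e : ℤ, g ∈ HF s₀ s₁ h₀ h₁ G e := by
      rcases hfrag g hg with h | h
      · exact ⟨0, (mem_HF s₀ s₁ h₀ h₁).2 (by unfold sg; simpa using h)⟩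
      · exact ⟨1, (mem_HF s₀ s₁ h₀ h₁).2 (by unfold sg; simpa using h)⟩
    obtain ⟨e, he⟩ := h0
    exact fun y hy => ⟨key e g he y hy, key e _ (Subgroup.inv_mem _ he) y hy⟩
  rintro _ ⟨g, rfl⟩
  have hg : g ∈ Subgroup.closure S := by rw [hS]; trivial
  refine (hall hg x ⟨0, ⟨fun j h1 h2 => absurd h2 (by omega), fun j h1 h2 => absurd h2 (by omega)⟩, ?_⟩).1
  have := vv_even s₀ s₁ h₀ h₁ x 0
  simpa using this

include h₀ h₁ in
theorem orbit_encard_lt (hcyc : NoCycle s₀ s₁) (x : X) {S : Set G} (hS : Subgroup.closure S = ⊤)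
    (hfrag : ∀ g ∈ S, (∀ x, g • x = x ∨ g • x = s₀ x) ∨ (∀ x, g • x = x ∨ g • x = s₁ x))
    {k : ℕ} (hexp : ∀ g : G, g ^ (2 ^ k) = 1) :
    (MulAction.orbit G x).encard < (2 : ℕ∞) ^ (2 * (k + 1) ^ 2 + 1) :=
  lt_of_le_of_lt ((Set.encard_le_encard (orbit_sub s₀ s₁ h₀ h₁ hcyc x hS hfrag)).trans
    (Set.encard_image_le _ _)) (Line.encard_lt (lineF s₀ s₁ h₀ h₁ hcyc x) hexp)

end

/-- a finitely generated group acting faithfully with bounded orbits is finite -/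
theorem finite_of_bounded (G : Type*) {X : Type*} [Group G] [MulAction G X] [FaithfulSMul G X]
    (hfg : Group.FG G) {N : ℕ} (hN : ∀ x : X, (MulAction.orbit G x).encard ≤ N) : Finite G := by
  classical
  obtain ⟨S, hS⟩ := hfg.out
  have hfin : Finite (G →* Equiv.Perm (Fin N)) := by
    refine Finite.of_injective (fun (f : G →* Equiv.Perm (Fin N)) (s : S) => f s) ?_
    intro f g h
    refine MonoidHom.eq_of_eqOn_dense hS fun s hs => ?_
    exact congrFun h ⟨s, hs⟩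
  refine Finite.of_injective (fun (g : G) (f : G →* Equiv.Perm (Fin N)) => f g) ?_
  intro g g' h
  refine FaithfulSMul.eq_of_smul_eq_smul (α := X) fun x => ?_
  have hcard := hN x
  have hof : (MulAction.orbit G x).Finite := Set.finite_of_encard_le_coe hcard
  have : Fintype (MulAction.orbit G x) := hof.fintype
  obtain ⟨ι⟩ : Nonempty ((MulAction.orbit G x) ↪ Fin N) := by
    refine Function.Embedding.nonempty_of_card_le ?_
    rw [Fintype.card_fin]
    rw [hof.encard_eq_coe_toFinset_card] at hcard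
    have h1 : hof.toFinset.card ≤ N := by exact_mod_cast hcard
    rw [← Set.toFinset_card]
    have h2 : (MulAction.orbit G x).toFinset = hof.toFinset := by
      ext y; simp
    rw [h2]; exact h1
  have h1 := congrFun h ((Equiv.Perm.viaEmbeddingHom ι).comp (MulAction.toPermHom G (MulAction.orbit G x)))
  simp only [MonoidHom.comp_apply] at h1
  have h2 := Equiv.Perm.viaEmbeddingHom_injective ι h1
  have h3 := congrArg (fun p : Equiv.Perm (MulAction.orbit G x) => p ⟨x, MulAction.mem_orbit_self x⟩) h2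
  exact congrArg Subtype.val h3

end Pool.Agent.FRG
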